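import Pool.Agent.Lib.MP_7b6720_al.HS.Defs
import Pool.Agent.Lib.MP_7b6720_al.LB.EX.Main

set_option autoImplicit false

/-!
# Row FIN: the main theorem from GRO
-/

namespace Pool.Agent.SymDiam.HS

open Equiv Finset Pool.Agent.SymDiam.EX

/-- a ball that is transitive on `t`-tuples is large -/
theorem tr_card {n t r : ℕ} {A : Set (Perm (Fin n))} (h : Tr A t r) (htn : t ≤ n) :
    (n - t) ^ t ≤ (ball A r).card := by
  classical
  choose g hg1 hg2 using h (Fin.castLEEmb htn)
  have h1 : (univ.image g).card = n.descFactorial t := by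
    rw [card_image_of_injective, card_univ, Fintype.card_embedding_eq, Fintype.card_fin,
      Fintype.card_fin]
    intro e e' hee
    ext i
    have h2 := hg2 e i
    have h3 := hg2 e' i
    rw [hee] at h2
    rw [← h2, ← h3]
  calc (n - t) ^ t ≤ (n + 1 - t) ^ t := Nat.pow_le_pow_left (by omega) _
    _ ≤ n.descFactorial t := Nat.pow_sub_le_descFactorial n t
    _ = (univ.image g).card := h1.symm
    _ ≤ (ball A r).card := by
        refine card_le_card fun x hx => ?_
        rw [mem_image] at hx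
        obtain ⟨e, _, rfl⟩ := hx
        exact mem_ball.2 (hg1 e)

theorem fin_proof (hG : GroStatement) : MainStatement := by
  classical
  obtain ⟨K, n0, hK⟩ := hG
  refine ⟨K + 26, max n0 (2 ^ 5000), fun n hn A hA g hg => ?_⟩
  have hn0 : n0 ≤ n := le_trans (le_max_left _ _) hn
  have hn1 : 2 ^ 5000 ≤ n := le_trans (le_max_right _ _) hn
  have hlam5 : 5000 ≤ Nat.log 2 n := Nat.le_log_of_pow_le Nat.one_lt_two hn1
  have hbig : 100000 ≤ n := by
    refine le_trans ?_ hn1
    calc 100000 ≤ 2 ^ 17 := by norm_num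
      _ ≤ 2 ^ 5000 := Nat.pow_le_pow_right Nat.two_pos (by norm_num)
  clear hn hn1
  set lam := Nat.log 2 n with hlam
  set M := Nat.log 2 lam + 1 with hM
  have hlamn : 2 ^ lam ≤ n := Nat.pow_log_le_self 2 (by omega)
  have hM1 : 1 ≤ M := by omega
  obtain ⟨r, hr1, hr2, hr3⟩ := hK n hn0 A hA (n / 20) (by omega)
  set e := K * M ^ 2 * lam ^ 2 with he
  have hsq : 1 ≤ M ^ 2 * lam ^ 2 := Nat.mul_pos (Nat.pow_pos (by omega)) (Nat.pow_pos (by omega))
  have heK : e + 26 ≤ (K + 26) * M ^ 2 * lam ^ 2 := by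
    have h1 : (K + 26) * M ^ 2 * lam ^ 2 = K * M ^ 2 * lam ^ 2 + 26 * (M ^ 2 * lam ^ 2) := by ring
    rw [h1, ← he]
    omega
  rcases hr3 with ⟨z, hz1, hzb, hz5⟩ | hT
  · obtain ⟨W, hW, hWb⟩ := H96.mixQ H98.gens (H28.walk (H28.gap H28.poin)) H98.trans 3 n
      (by omega) A hA
    refine (LB.finish (by omega) hA hW hWb z hz1 hzb hz5 g hg).mono ?_
    have hR1 : 1 ≤ n ^ (3 * 3 + 5) := Nat.one_le_pow _ _ (by omega)
    have h1 : r ≤ n ^ (e + 14) := hr2.trans (Nat.pow_le_pow_right (by omega) (by omega))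
    have h2 : n ^ (3 * 3 + 5) ≤ n ^ (e + 14) := Nat.pow_le_pow_right (by omega) (by omega)
    set B := n ^ (e + 14) with hB
    have hB1 : 1 ≤ B := Nat.one_le_pow _ _ (by omega)
    have h3 : 256 * r + 342 * n ^ (3 * 3 + 5) ≤ n * B := by
      calc 256 * r + 342 * n ^ (3 * 3 + 5) ≤ 598 * B := by omega
        _ ≤ n * B := Nat.mul_le_mul_right _ (by omega)
    have h4 : 4 * (n * (256 * r + 342 * n ^ (3 * 3 + 5))) + 6 * n ^ (3 * 3 + 5) ≤
        10 * (n * (n * B)) := by
      have h5 := Nat.mul_le_mul_left n h3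
      have h6 : B ≤ n * (n * B) :=
        (Nat.le_mul_of_pos_left _ (by omega)).trans (Nat.le_mul_of_pos_left _ (by omega))
      omega
    calc n * (4 * (n * (256 * r + 342 * n ^ (3 * 3 + 5))) + 6 * n ^ (3 * 3 + 5)) + 1
        ≤ n * (10 * (n * (n * B))) + n * (n * (n * B)) := by
          refine Nat.add_le_add (Nat.mul_le_mul_left _ h4) ?_
          exact Nat.mul_pos (by omega) (Nat.mul_pos (by omega) (Nat.mul_pos (by omega) hB1))
      _ = 11 * (n ^ 3 * B) := by ring
      _ ≤ n * (n ^ 3 * B) := Nat.mul_le_mul_right _ (by omega)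
      _ = n ^ (e + 18) := by
          rw [hB]
          have : e + 18 = e + 14 + 4 := by omega
          rw [this, pow_add n (e + 14) 4]; ring
      _ ≤ n ^ ((K + 26) * M ^ 2 * lam ^ 2) := Nat.pow_le_pow_right (by omega) (by omega)
  · have h1 := tr_card hT (by omega)
    have h2 : 2 ^ (200 * n) ≤ (ball A r).card := by
      refine le_trans ?_ h1
      have h3 : 2 ^ (lam - 1) ≤ n - n / 20 := by
        have h4 : 2 ^ lam = 2 * 2 ^ (lam - 1) := by
          have : lam = (lam - 1) + 1 := by omega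
          conv_lhs => rw [this]
          rw [pow_succ]; ring
        omega
      calc 2 ^ (200 * n) ≤ 2 ^ ((lam - 1) * (n / 20)) := by
            refine Nat.pow_le_pow_right (by omega) ?_
            calc 200 * n ≤ 4999 * (n / 20) := by omega
              _ ≤ (lam - 1) * (n / 20) := Nat.mul_le_mul_right _ (by omega)
        _ = (2 ^ (lam - 1)) ^ (n / 20) := by rw [pow_mul]
        _ ≤ (n - n / 20) ^ (n / 20) := Nat.pow_le_pow_left h3 _
    refine (expo hA hr1 (ball A r) (fun x hx => mem_ball.1 hx) h2 g hg).mono ?_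
    calc r * n ^ 26 ≤ n ^ e * n ^ 26 := Nat.mul_le_mul_right _ hr2
      _ = n ^ (e + 26) := by rw [pow_add]
      _ ≤ n ^ ((K + 26) * M ^ 2 * lam ^ 2) := Nat.pow_le_pow_right (by omega) heK

/-- the exponent, in real numbers -/
theorem expo_real (K : ℕ) : ∃ C : ℝ, 0 ≤ C ∧ ∀ n : ℕ, 16 ≤ n →
    ((n ^ (K * (Nat.log 2 (Nat.log 2 n) + 1) ^ 2 * Nat.log 2 n ^ 2) : ℕ) : ℝ) ≤
      Real.exp (C * Real.log n ^ 3 * Real.log (Real.log n) ^ 2) := by
  refine ⟨K * 36, by positivity, fun n hn => ?_⟩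
  have hn0 : (16 : ℝ) ≤ n := by exact_mod_cast hn
  have hl2 : (0.69 : ℝ) < Real.log 2 := by
    have := Real.log_two_gt_d9
    linarith
  have hl2' : Real.log 2 < 0.7 := by
    have := Real.log_two_lt_d9
    linarith
  set L := Real.log n with hL
  have hL16 : 2.76 ≤ L := by
    have h1 : Real.log 16 ≤ L := Real.log_le_log (by norm_num) hn0
    have h2 : Real.log 16 = 4 * Real.log 2 := by
      have : (16 : ℝ) = 2 ^ 4 := by norm_num
      rw [this, Real.log_pow]; norm_num
    linarith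
  have hLL : 1 ≤ Real.log L := by
    rw [Real.le_log_iff_exp_le (by linarith)]
    have := Real.exp_one_lt_d9
    linarith
  -- `lam ≤ 1.5 L`
  set lam := Nat.log 2 n with hlam
  have hlam1 : (lam : ℝ) ≤ 1.5 * L := by
    have h1 : (2 : ℝ) ^ lam ≤ n := by exact_mod_cast Nat.pow_log_le_self 2 (by omega)
    have h2 : (lam : ℝ) * Real.log 2 ≤ L := by
      rw [← Real.log_pow, hL]
      exact Real.log_le_log (by positivity) h1
    nlinarith [Nat.cast_nonneg (α := ℝ) lam]
  have hlam4 : 4 ≤ lam := by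
    rw [hlam]
    exact Nat.le_log_of_pow_le (by omega) (by omega)
  have hM : ((Nat.log 2 lam + 1 : ℕ) : ℝ) ≤ 4 * Real.log L := by
    have h1 : (2 : ℝ) ^ Nat.log 2 lam ≤ lam := by
      exact_mod_cast Nat.pow_log_le_self 2 (by omega)
    have h2 : (Nat.log 2 lam : ℝ) * Real.log 2 ≤ Real.log (1.5 * L) := by
      rw [← Real.log_pow]
      exact Real.log_le_log (by positivity) (h1.trans hlam1)
    have h3 : Real.log (1.5 * L) = Real.log 1.5 + Real.log L :=
      Real.log_mul (by norm_num) (by linarith)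
    have h4 : Real.log 1.5 ≤ 0.5 := by
      have := Real.log_le_sub_one_of_pos (show (0 : ℝ) < 1.5 by norm_num)
      linarith
    rw [h3] at h2
    push_cast
    nlinarith [Nat.cast_nonneg (α := ℝ) (Nat.log 2 lam)]
  have hexp : ((n ^ (K * (Nat.log 2 lam + 1) ^ 2 * lam ^ 2) : ℕ) : ℝ) =
      Real.exp (((K * (Nat.log 2 lam + 1) ^ 2 * lam ^ 2 : ℕ) : ℝ) * L) := by
    rw [Real.exp_nat_mul, hL, Real.exp_log (by linarith)]
    push_cast
    rfl
  rw [hexp, Real.exp_le_exp]
  push_cast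
  push_cast at hM
  have hM0 : (0 : ℝ) ≤ (Nat.log 2 lam : ℝ) + 1 := by positivity
  have hlam0 : (0 : ℝ) ≤ (lam : ℝ) := by positivity
  have h5 : ((Nat.log 2 lam : ℝ) + 1) ^ 2 ≤ (4 * Real.log L) ^ 2 := pow_le_pow_left₀ hM0 hM 2
  have h6 : (lam : ℝ) ^ 2 ≤ (1.5 * L) ^ 2 := pow_le_pow_left₀ hlam0 hlam1 2
  have h7 : ((Nat.log 2 lam : ℝ) + 1) ^ 2 * (lam : ℝ) ^ 2 ≤ (4 * Real.log L) ^ 2 * (1.5 * L) ^ 2 :=
    mul_le_mul h5 h6 (by positivity) (by positivity)
  calc (K : ℝ) * ((Nat.log 2 lam : ℝ) + 1) ^ 2 * (lam : ℝ) ^ 2 * L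
      = (K : ℝ) * (((Nat.log 2 lam : ℝ) + 1) ^ 2 * (lam : ℝ) ^ 2) * L := by ring
    _ ≤ (K : ℝ) * ((4 * Real.log L) ^ 2 * (1.5 * L) ^ 2) * L := by
        refine mul_le_mul_of_nonneg_right (mul_le_mul_of_nonneg_left h7 (by positivity))
          (by linarith)
    _ = (K : ℝ) * 36 * L ^ 3 * Real.log L ^ 2 := by ring

/-- the main theorem, in real numbers, for all `n ≥ 3` -/
theorem main_real (h : MainStatement) : ∃ C : ℝ, ∀ n : ℕ, 3 ≤ n → ∀ A : Set (Perm (Fin n)),
    alternatingGroup (Fin n) ≤ Subgroup.closure A → ∀ g ∈ Subgroup.closure A,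
      ∃ r : ℕ, (r : ℝ) ≤ Real.exp (C * Real.log n ^ 3 * Real.log (Real.log n) ^ 2) ∧
        InBall A r g := by
  obtain ⟨K, n0, hK⟩ := h
  obtain ⟨C1, hC1, hC⟩ := expo_real K
  set c : ℕ → ℝ := fun n => Real.log n ^ 3 * Real.log (Real.log n) ^ 2 with hc
  have hcpos : ∀ n : ℕ, 3 ≤ n → 0 < c n := by
    intro n hn
    have h3 : (3 : ℝ) ≤ n := by exact_mod_cast hn
    have h1 : 1 < Real.log n := by
      rw [Real.lt_log_iff_exp_lt (by linarith)]
      have := Real.exp_one_lt_d9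
      linarith
    have h2 : 0 < Real.log (Real.log n) := Real.log_pos h1
    rw [hc]
    positivity
  set C2 : ℝ := ∑ n ∈ range (max n0 16), |Real.log (n.factorial : ℝ) / c n| with hC2
  have hC20 : 0 ≤ C2 := sum_nonneg fun _ _ => abs_nonneg _
  refine ⟨C1 + C2, fun n hn A hA g hg => ?_⟩
  have hcn := hcpos n hn
  have hre : (C1 + C2) * Real.log n ^ 3 * Real.log (Real.log n) ^ 2 = (C1 + C2) * c n := by
    rw [hc]; ring
  rw [hre]
  by_cases hcase : max n0 16 ≤ n
  · refine ⟨_, ?_, hK n (le_trans (le_max_left _ _) hcase) A hA g hg⟩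
    refine (hC n (le_trans (le_max_right _ _) hcase)).trans ?_
    rw [Real.exp_le_exp]
    have h1 : C1 * Real.log n ^ 3 * Real.log (Real.log n) ^ 2 = C1 * c n := by rw [hc]; ring
    rw [h1]
    exact mul_le_mul_of_nonneg_right (by linarith) hcn.le
  · push Not at hcase
    refine ⟨n.factorial, ?_, H98.triv n A g hg⟩
    have hf : (0 : ℝ) < (n.factorial : ℝ) := by exact_mod_cast Nat.factorial_pos n
    rw [← Real.log_le_iff_le_exp hf]
    have h1 : |Real.log (n.factorial : ℝ) / c n| ≤ C2 := by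
      rw [hC2]
      exact single_le_sum (f := fun n : ℕ => |Real.log (n.factorial : ℝ) / c n|)
        (fun _ _ => abs_nonneg _) (mem_range.2 hcase)
    have h2 : Real.log (n.factorial : ℝ) / c n ≤ C1 + C2 :=
      (le_abs_self _).trans (h1.trans (by linarith))
    rwa [div_le_iff₀ hcn] at h2

end Pool.Agent.SymDiam.HS
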