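import Pool.Agent.Lib.MP_7b6720_al.HS.Defs
import Pool.Agent.Lib.MP_7b6720_al.INV.H98.Trans

set_option autoImplicit false

/-!
# Row GRO: iteration of the growth step
-/

namespace Pool.Agent.SymDiam.HS

open Equiv Finset Pool.Agent.SymDiam.EX

/-- a harmonic sum in natural numbers -/
theorem harm (c N : ℕ) : ∑ j ∈ Ico 1 (2 ^ N), c / j ≤ c * N := by
  induction N with
  | zero => simp
  | succ N ih =>
      have h1 : 1 ≤ 2 ^ N := Nat.one_le_two_pow
      have h2 : 2 ^ N ≤ 2 ^ (N + 1) := Nat.pow_le_pow_right (by omega) (by omega)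
      rw [← sum_Ico_consecutive _ h1 h2]
      have h3 : ∑ j ∈ Ico (2 ^ N) (2 ^ (N + 1)), c / j ≤ c := by
        calc ∑ j ∈ Ico (2 ^ N) (2 ^ (N + 1)), c / j
            ≤ ∑ j ∈ Ico (2 ^ N) (2 ^ (N + 1)), c / 2 ^ N := by
              refine sum_le_sum fun j hj => ?_
              rw [mem_Ico] at hj
              exact Nat.div_le_div_left hj.1 (by omega)
          _ = 2 ^ N * (c / 2 ^ N) := by
              rw [sum_const, Nat.card_Ico, smul_eq_mul]
              congr 1
              rw [pow_succ]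
              omega
          _ ≤ c := Nat.mul_div_le _ _
      calc _ ≤ c * N + c := Nat.add_le_add ih h3
        _ = c * (N + 1) := by ring

/-- transitivity on shorter tuples -/
theorem Tr.le {n : ℕ} {A : Set (Perm (Fin n))} {t t' r : ℕ} (h : Tr A t r) (ht : t' ≤ t)
    (htn : t + 2 ≤ n) : Tr A t' r := by
  intro e e'
  have htop : alternatingGroup (Fin n) ≤ Subgroup.closure (Set.univ : Set (Perm (Fin n))) := by
    rw [Subgroup.closure_univ]; exact le_top
  have hc : ∀ e : Fin t' ↪ Fin n, ∃ f : Fin t ↪ Fin n, ∀ i : Fin t', f (Fin.castLE ht i) = e i := by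
    intro e
    obtain ⟨g, -, hg⟩ := H98.trans n t' (by omega) Set.univ htop
      (Fin.castLEEmb (by omega)) e
    refine ⟨(Fin.castLEEmb (by omega : t ≤ n)).trans g.toEmbedding, fun i => ?_⟩
    have := hg i
    simpa using this
  obtain ⟨f, hf⟩ := hc e
  obtain ⟨f', hf'⟩ := hc e'
  obtain ⟨g, h1, h2⟩ := h f f'
  refine ⟨g, h1, fun i => ?_⟩
  rw [← hf, ← hf']
  exact h2 _

/-- the base of the growth -/
theorem base (hS : SucStatement) {n : ℕ} {A : Set (Perm (Fin n))}
    (hA : alternatingGroup (Fin n) ≤ Subgroup.closure A) (t : ℕ) (ht : t + 2 ≤ n) (hn : 4 ≤ n) :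
    Tr A t (n ^ (2 * t)) := by
  induction t with
  | zero =>
      intro e e'
      exact ⟨1, InBall.one, fun i => i.elim0⟩
  | succ t ih =>
      refine (hS n t (n ^ (2 * t)) A hA (by omega) (ih (by omega))).mono ?_
      have h1 : 1 ≤ n ^ (2 * t) := Nat.one_le_pow _ _ (by omega)
      have h2 : n ^ (2 * (t + 1)) = n * n * n ^ (2 * t) := by
        have : 2 * (t + 1) = 2 * t + 1 + 1 := by ring
        rw [this, pow_succ, pow_succ]; ring
      rw [h2]
      set r := n ^ (2 * t) with hr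
      calc r + n * (2 * r + 1) ≤ n * r + n * (2 * r + r) := by
            refine Nat.add_le_add (Nat.le_mul_of_pos_left _ (by omega))
              (Nat.mul_le_mul_left _ (by omega))
        _ = n * (4 * r) := by ring
        _ ≤ n * (n * r) := Nat.mul_le_mul_left _ (Nat.mul_le_mul_right _ hn)
        _ = n * n * r := by ring

/-- a short element of small support, or transitivity on `t`-tuples -/
def G {n : ℕ} (A : Set (Perm (Fin n))) (t e : ℕ) : Prop :=
  (∃ z : Perm (Fin n), z ≠ 1 ∧ InBall A (n ^ e) z ∧ 5 * z.support.card ≤ n) ∨ Tr A t (n ^ e)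

theorem G.mono {n : ℕ} {A : Set (Perm (Fin n))} {t e t' e' : ℕ} (h : G A t e) (hn : 1 ≤ n)
    (ht : t' ≤ t) (htn : t + 2 ≤ n) (he : e ≤ e') : G A t' e' := by
  have h1 : n ^ e ≤ n ^ e' := Nat.pow_le_pow_right hn he
  rcases h with ⟨z, a1, a2, a3⟩ | h
  · exact Or.inl ⟨z, a1, a2.mono h1, a3⟩
  · exact Or.inr ((h.le ht htn).mono h1)

theorem gro_proof (hS : SucStatement) (hP : StpStatement) : GroStatement := by
  obtain ⟨K, n0, hK, hstp⟩ := hP
  refine ⟨70 * K, max n0 100, fun n hn A hA t ht => ?_⟩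
  have hn0 : n0 ≤ n := le_trans (le_max_left _ _) hn
  have hn1 : 100 ≤ n := le_trans (le_max_right _ _) hn
  set lam := Nat.log 2 n with hlam
  set M := Nat.log 2 lam + 1 with hM
  set q := K * M * lam ^ 2 with hq
  have hlam1 : 6 ≤ lam := by
    rw [hlam]
    exact Nat.le_log_of_pow_le (by omega) (by omega)
  have hM1 : 1 ≤ M := by omega
  have hq1 : 1 ≤ q := Nat.mul_pos (Nat.mul_pos hK hM1) (Nat.pow_pos (by omega))
  have hlamn : 2 ^ lam ≤ n := Nat.pow_log_le_self 2 (by omega)
  have hlamM : lam < 2 ^ M := Nat.lt_pow_succ_log_self (by omega) lam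
  -- one step
  have hstep : ∀ j t e : ℕ, q ≤ 2 ^ j → 1 ≤ j → 2 ^ j ≤ t → 10 * t ≤ n → G A t e →
      G A (t + 2 ^ j * j / q) (e + 22) := by
    intro j t e hj hj1 hjt htn hG
    have hr1 : 1 ≤ n ^ e := Nat.one_le_pow _ _ (by omega)
    rcases hG with ⟨z, a1, a2, a3⟩ | hT
    · exact Or.inl ⟨z, a1, a2.mono (Nat.pow_le_pow_right (by omega) (by omega)), a3⟩
    · have hu : 1 ≤ 2 ^ j * j / q := by
        rw [Nat.one_le_div_iff (by omega)]
        calc q ≤ 2 ^ j := hj
          _ ≤ 2 ^ j * j := Nat.le_mul_of_pos_right _ (by omega)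
      have h1 := hstp n hn0 A hA t (n ^ e) (2 ^ j * j / q) hr1 htn hu hT (hj.trans hjt) (by
        have h2 : j ≤ Nat.log 2 t := Nat.le_log_of_pow_le (by omega) hjt
        calc q * (2 ^ j * j / q) ≤ 2 ^ j * j := Nat.mul_div_le _ _
          _ ≤ t * Nat.log 2 t := Nat.mul_le_mul hjt h2)
      rcases h1 with ⟨z, a1, a2, a3⟩ | h1
      · refine Or.inl ⟨z, a1, a2.mono ?_, a3⟩
        rw [← pow_add]
        exact Nat.pow_le_pow_right (by omega) (by omega)
      · refine Or.inr (h1.mono ?_)
        rw [← pow_add]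
        exact Nat.pow_le_pow_right (by omega) (by omega)
  -- one phase
  have hphase : ∀ j e : ℕ, q ≤ 2 ^ j → 1 ≤ j → 10 * 2 ^ (j + 1) ≤ n → G A (2 ^ j) e →
      G A (2 ^ (j + 1)) (e + 22 * (2 * q / j + 1)) := by
    intro j e hj hj1 hjn hG
    set u := 2 ^ j * j / q with hu
    have hu1 : 1 ≤ u := by
      rw [hu, Nat.one_le_div_iff (by omega)]
      calc q ≤ 2 ^ j := hj
        _ ≤ 2 ^ j * j := Nat.le_mul_of_pos_right _ (by omega)
    have h2j : 2 ^ (j + 1) = 2 ^ j + 2 ^ j := by rw [pow_succ]; ring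
    have hit : ∀ i : ℕ, i ≤ 2 ^ j / u + 1 → G A (2 ^ j + i * u) (e + 22 * i) := by
      intro i
      induction i with
      | zero => intro _; simpa using hG
      | succ i ih =>
          intro hi
          have h1 := ih (by omega)
          have h2 : i * u ≤ 2 ^ j := by
            calc i * u ≤ (2 ^ j / u) * u := Nat.mul_le_mul_right _ (by omega)
              _ ≤ 2 ^ j := Nat.div_mul_le_self _ _
          have h3 := hstep j (2 ^ j + i * u) (e + 22 * i) hj hj1 (by omega) (by omega) h1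
          have h4 : 2 ^ j + (i + 1) * u = 2 ^ j + i * u + u := by ring
          have h5 : e + 22 * (i + 1) = e + 22 * i + 22 := by ring
          rw [h4, h5]
          exact h3
    have h1 := hit (2 ^ j / u + 1) le_rfl
    have h2 : 2 ^ j < (2 ^ j / u + 1) * u := by
      have := Nat.lt_div_mul_add hu1 (a := 2 ^ j)
      calc 2 ^ j < 2 ^ j / u * u + u := this
        _ = _ := by ring
    have h3 : 2 ^ j / u * u ≤ 2 ^ j := Nat.div_mul_le_self _ _
    have h4 : (2 ^ j / u + 1) * u = 2 ^ j / u * u + u := by ring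
    have hu2 : u ≤ 2 ^ j := by
      -- `u ≤ 2 ^ j` since `j ≤ q`
      have hjl : j ≤ lam := by
        rw [hlam]
        refine Nat.le_log_of_pow_le (by omega) ?_
        omega
      have hjq : j ≤ q := by
        calc j ≤ lam := hjl
          _ ≤ lam ^ 2 := by nlinarith
          _ ≤ K * M * lam ^ 2 := Nat.le_mul_of_pos_left _ (Nat.mul_pos hK hM1)
      rw [hu]
      exact Nat.div_le_of_le_mul (by
        calc 2 ^ j * j ≤ 2 ^ j * q := Nat.mul_le_mul_left _ hjq
          _ = q * 2 ^ j := by ring)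
    -- number of steps
    have h5 : 2 ^ j / u ≤ 2 * q / j := by
      rw [Nat.le_div_iff_mul_le (by omega)]
      have h6 : 2 ^ j * j ≤ 2 * q * u := by
        have h7 := Nat.lt_div_mul_add (show 0 < q by omega) (a := 2 ^ j * j)
        rw [← hu] at h7
        have h8 : q ≤ u * q := Nat.le_mul_of_pos_left _ hu1
        have h9 : 2 * q * u = u * q + u * q := by ring
        omega
      refine Nat.le_of_mul_le_mul_right ?_ hu1
      calc 2 ^ j / u * j * u = 2 ^ j / u * u * j := by ring
        _ ≤ 2 ^ j * j := Nat.mul_le_mul_right _ h3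
        _ ≤ 2 * q * u := h6
    refine h1.mono (by omega) (by omega) ?_ ?_
    · rw [h4]; omega
    · refine Nat.add_le_add_left (Nat.mul_le_mul_left _ (by omega)) _
  set j0 := Nat.log 2 q + 1 with hj0
  have hj0a : q < 2 ^ j0 := Nat.lt_pow_succ_log_self (by omega) q
  have hj0b : 2 ^ j0 ≤ 2 * q := by
    rw [hj0, pow_succ, mul_comm]
    exact Nat.mul_le_mul_left _ (Nat.pow_log_le_self 2 (by omega))
  have hfin : ∀ e, G A t e → e ≤ 70 * K * M ^ 2 * lam ^ 2 →
      ∃ r, 1 ≤ r ∧ r ≤ n ^ (70 * K * M ^ 2 * lam ^ 2) ∧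
        ((∃ z : Perm (Fin n), z ≠ 1 ∧ InBall A r z ∧ 5 * z.support.card ≤ n) ∨ Tr A t r) := by
    intro e hG he
    exact ⟨n ^ e, Nat.one_le_pow _ _ (by omega), Nat.pow_le_pow_right (by omega) he, hG⟩
  have hqb : q * M = K * M ^ 2 * lam ^ 2 := by rw [hq]; ring
  have hqM : q ≤ q * M := Nat.le_mul_of_pos_right _ hM1
  have hlq : lam ≤ q := by
    calc lam ≤ lam ^ 2 := by nlinarith
      _ ≤ K * M * lam ^ 2 := Nat.le_mul_of_pos_left _ (Nat.mul_pos hK hM1)
  have h70 : 70 * K * M ^ 2 * lam ^ 2 = 70 * (q * M) := by rw [hqb]; ring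
  by_cases hcase : t ≤ 2 ^ j0
  · refine hfin (2 * t) (Or.inr (base hS hA t (by omega) (by omega))) ?_
    rw [h70]
    omega
  · push Not at hcase
    -- the phases
    have hbase : G A (2 ^ j0) (2 * 2 ^ j0) :=
      Or.inr (base hS hA _ (by omega) (by omega))
    have hph : ∀ J, j0 ≤ J → 10 * 2 ^ J ≤ n →
        G A (2 ^ J) (2 * 2 ^ j0 + ∑ j ∈ Ico j0 J, 22 * (2 * q / j + 1)) := by
      intro J hJ
      induction J, hJ using Nat.le_induction with
      | base => intro _; simpa using hbase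
      | succ J hJ ih =>
          intro hJn
          have h1 : 2 ^ J ≤ 2 ^ (J + 1) := Nat.pow_le_pow_right (by omega) (by omega)
          have h2 := hphase J _ (hj0a.le.trans (Nat.pow_le_pow_right (by omega) hJ)) (by omega)
            hJn (ih (by omega))
          rw [sum_Ico_succ_top hJ, ← add_assoc]
          exact h2
    set J := Nat.log 2 t + 1 with hJ
    have ht1 : 1 ≤ t := by
      have : 0 < 2 ^ j0 := Nat.pow_pos (by omega)
      omega
    have hJa : t < 2 ^ J := Nat.lt_pow_succ_log_self (by omega) t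
    have hJb : 2 ^ J ≤ 2 * t := by
      rw [hJ, pow_succ, mul_comm]
      exact Nat.mul_le_mul_left _ (Nat.pow_log_le_self 2 (by omega))
    have hJ0 : j0 ≤ J := by
      by_contra hlt
      push Not at hlt
      have := Nat.pow_le_pow_right (show 0 < 2 by omega) hlt.le
      omega
    have hJlam : J ≤ lam := by
      rw [hlam]
      exact Nat.le_log_of_pow_le (by omega) (by omega)
    have h1 := hph J hJ0 (by omega)
    refine hfin _ (h1.mono (by omega) hJa.le (by omega) le_rfl) ?_
    have h2 : ∑ j ∈ Ico j0 J, 22 * (2 * q / j + 1) ≤ 22 * (2 * q * M) + 22 * lam := by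
      rw [← mul_sum, sum_add_distrib, sum_const, Nat.card_Ico, smul_eq_mul, mul_one, mul_add]
      refine Nat.add_le_add (Nat.mul_le_mul_left _ ?_) (Nat.mul_le_mul_left _ (by omega))
      refine le_trans (sum_le_sum_of_subset ?_) (harm (2 * q) M)
      intro j hj
      rw [mem_Ico] at hj ⊢
      omega
    rw [h70]
    have h3 : 2 * q * M = 2 * (q * M) := by ring
    omega

end Pool.Agent.SymDiam.HS
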