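import Pool.Agent.Lib.MP_7b6720_al.HS.Defs

set_option autoImplicit false

/-!
# Row SPE: assembly of the spectral part
-/

namespace Pool.Agent.SymDiam.HS

open Equiv Finset

variable {n : ℕ}

theorem Dn_congr {E : Finset (Fin n)} {f g : Finset (Fin n) → ℝ} {a : ℕ}
    (h : ∀ S ⊆ E, S.card = a + 1 → f S = g S) (S : Finset (Fin n)) (hS : S ⊆ E)
    (hc : S.card = a) : Dn E f S = Dn E g S := by
  unfold Dn
  congr 1
  refine sum_congr rfl fun x hx => ?_
  rw [mem_sdiff] at hx
  exact h _ (insert_subset_iff.2 ⟨hx.1, hS⟩) (by rw [card_insert_of_notMem hx.2, hc])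

theorem Dn_congr_it {E : Finset (Fin n)} {f g : Finset (Fin n) → ℝ} (j : ℕ) : ∀ a : ℕ,
    (∀ S ⊆ E, S.card = a + j → f S = g S) → ∀ S ⊆ E, S.card = a →
      (Dn E)^[j] f S = (Dn E)^[j] g S := by
  induction j with
  | zero => intro a h S hS hc; exact h S hS hc
  | succ j ih =>
      intro a h S hS hc
      rw [Function.iterate_succ_apply', Function.iterate_succ_apply']
      exact Dn_congr (fun T hT hTc => ih (a + 1) (fun U hU hUc => h U hU (by omega)) T hT hTc)
        S hS hc

theorem Dn_lin (E : Finset (Fin n)) (f g : Finset (Fin n) → ℝ) (α γ : ℝ) :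
    Dn E (fun S => α * f S + γ * g S) = fun S => α * Dn E f S + γ * Dn E g S := by
  funext S
  unfold Dn
  rw [sum_add_distrib, ← mul_sum, ← mul_sum]
  ring

theorem Up_lin (f g : Finset (Fin n) → ℝ) (α γ : ℝ) :
    Up (fun S => α * f S + γ * g S) = fun S => α * Up f S + γ * Up g S := by
  funext S
  unfold Up
  rw [sum_add_distrib, ← mul_sum, ← mul_sum]
  ring

theorem Dn_lin_it (E : Finset (Fin n)) (α γ : ℝ) (j : ℕ) (f g : Finset (Fin n) → ℝ) :
    (Dn E)^[j] (fun S => α * f S + γ * g S) =
      fun S => α * (Dn E)^[j] f S + γ * (Dn E)^[j] g S := by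
  induction j with
  | zero => rfl
  | succ j ih =>
      rw [Function.iterate_succ_apply', ih, Dn_lin]
      funext S
      rw [Function.iterate_succ_apply', Function.iterate_succ_apply']

theorem Up_lin_it (α γ : ℝ) (j : ℕ) (f g : Finset (Fin n) → ℝ) :
    Up^[j] (fun S => α * f S + γ * g S) = fun S => α * Up^[j] f S + γ * Up^[j] g S := by
  induction j with
  | zero => rfl
  | succ j ih =>
      rw [Function.iterate_succ_apply', ih, Up_lin]
      funext S
      rw [Function.iterate_succ_apply', Function.iterate_succ_apply']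

theorem Dn_const (E : Finset (Fin n)) (c : ℝ) (j : ℕ) : ∀ S ⊆ E, S.card + j ≤ E.card →
    (Dn E)^[j] (fun _ => c) S = c := by
  induction j with
  | zero => intro S _ _; rfl
  | succ j ih =>
      intro S hS hc
      rw [Function.iterate_succ_apply']
      unfold Dn
      have h1 : 0 < (E \ S).card := by
        rw [card_sdiff_of_subset hS]; omega
      rw [sum_congr rfl (g := fun _ => c)]
      · rw [sum_const, nsmul_eq_mul]
        have : ((E \ S).card : ℝ) ≠ 0 := by exact_mod_cast h1.ne'
        field_simp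
      · intro x hx
        rw [mem_sdiff] at hx
        exact ih _ (insert_subset_iff.2 ⟨hx.1, hS⟩) (by rw [card_insert_of_notMem hx.2]; omega)

theorem Up_const (c : ℝ) (j : ℕ) : ∀ S : Finset (Fin n), j ≤ S.card →
    Up^[j] (fun _ => c) S = c := by
  induction j with
  | zero => intro S _; rfl
  | succ j ih =>
      intro S hc
      rw [Function.iterate_succ_apply']
      unfold Up
      have h1 : 0 < S.card := by omega
      rw [sum_congr rfl (g := fun _ => c)]
      · rw [sum_const, nsmul_eq_mul]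
        have : (S.card : ℝ) ≠ 0 := by exact_mod_cast h1.ne'
        field_simp
      · intro x hx
        exact ih _ (by rw [card_erase_of_mem hx]; omega)

theorem Up_zero (f : Finset (Fin n) → ℝ) (j : ℕ) : ∀ P : Finset (Fin n), (∀ T ⊆ P, f T = 0) →
    Up^[j] f P = 0 := by
  induction j with
  | zero => intro P h; exact h P subset_rfl
  | succ j ih =>
      intro P h
      rw [Function.iterate_succ_apply']
      unfold Up
      rw [sum_eq_zero, zero_div]
      intro x _
      exact ih _ fun T hT => h T (hT.trans (erase_subset _ _))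

/-- the iterated average over supersets -/
theorem Dn_it (E : Finset (Fin n)) (f : Finset (Fin n) → ℝ) (j : ℕ) : ∀ S ⊆ E,
    S.card + j ≤ E.card → ((E.card - S.card).choose j : ℕ) * (Dn E)^[j] f S =
      ∑ T ∈ (powersetCard (S.card + j) E).filter (fun T => S ⊆ T), f T := by
  induction j with
  | zero =>
      intro S hS _
      rw [Nat.choose_zero_right, Nat.cast_one, one_mul, Function.iterate_zero, id_eq]
      have h1 : (powersetCard (S.card + 0) E).filter (fun T => S ⊆ T) = {S} := by
        ext T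
        rw [mem_filter, mem_powersetCard, mem_singleton]
        constructor
        · rintro ⟨⟨_, h2⟩, h3⟩
          exact (eq_of_subset_of_card_le h3 (by omega)).symm
        · rintro rfl
          exact ⟨⟨hS, rfl⟩, subset_rfl⟩
      rw [h1, sum_singleton]
  | succ j ih =>
      intro S hS hc
      rw [Function.iterate_succ_apply']
      have h1 : 0 < (E \ S).card := by
        rw [card_sdiff_of_subset hS]; omega
      have h2 : ((E \ S).card : ℝ) ≠ 0 := by exact_mod_cast h1.ne'
      have h3 : (E \ S).card = E.card - S.card := card_sdiff_of_subset hS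
      -- `(N - a) choose (N - a - 1) j = (j + 1) choose (N - a) (j + 1)`
      have h4 : (E.card - S.card) * (E.card - (S.card + 1)).choose j =
          (E.card - S.card).choose (j + 1) * (j + 1) := by
        have h5 : E.card - S.card = (E.card - (S.card + 1)) + 1 := by omega
        rw [h5]
        exact Nat.add_one_mul_choose_eq _ _
      have h4' : ((E.card - S.card : ℕ) : ℝ) * ((E.card - (S.card + 1)).choose j : ℕ) =
          ((E.card - S.card).choose (j + 1) : ℕ) * ((j : ℝ) + 1) := by exact_mod_cast h4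
      -- sum over `x`
      have h6 : ∀ x ∈ E \ S, (((E.card - (S.card + 1)).choose j : ℕ) : ℝ) *
          (Dn E)^[j] f (insert x S) =
          ∑ T ∈ (powersetCard (S.card + (j + 1)) E).filter (fun T => S ⊆ T),
            if x ∈ T then f T else 0 := by
        intro x hx
        rw [mem_sdiff] at hx
        have h7 := ih (insert x S) (insert_subset_iff.2 ⟨hx.1, hS⟩)
          (by rw [card_insert_of_notMem hx.2]; omega)
        rw [card_insert_of_notMem hx.2] at h7
        rw [h7, ← sum_filter, filter_filter]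
        refine sum_congr ?_ fun _ _ => rfl
        ext T
        rw [mem_filter, mem_filter, mem_powersetCard, mem_powersetCard, insert_subset_iff]
        constructor
        · rintro ⟨⟨a1, a2⟩, a3, a4⟩
          exact ⟨⟨a1, by omega⟩, a4, a3⟩
        · rintro ⟨⟨a1, a2⟩, a3, a4⟩
          exact ⟨⟨a1, by omega⟩, a4, a3⟩
      have h8 : (((E.card - (S.card + 1)).choose j : ℕ) : ℝ) *
          (∑ x ∈ E \ S, (Dn E)^[j] f (insert x S)) =
          ((j : ℝ) + 1) * ∑ T ∈ (powersetCard (S.card + (j + 1)) E).filter (fun T => S ⊆ T), f T := by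
        rw [mul_sum, sum_congr rfl h6, sum_comm, mul_sum]
        refine sum_congr rfl fun T hT => ?_
        rw [mem_filter, mem_powersetCard] at hT
        obtain ⟨⟨a1, a2⟩, a3⟩ := hT
        rw [← sum_filter, sum_const, nsmul_eq_mul]
        congr 1
        have h9 : (E \ S).filter (fun x => x ∈ T) = T \ S := by
          ext x
          rw [mem_filter, mem_sdiff, mem_sdiff]
          constructor
          · rintro ⟨⟨_, b2⟩, b3⟩; exact ⟨b3, b2⟩
          · rintro ⟨b1, b2⟩; exact ⟨⟨a1 b1, b2⟩, b1⟩
        rw [h9, card_sdiff_of_subset a3, a2]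
        have : S.card + (j + 1) - S.card = j + 1 := by omega
        rw [this]
        push_cast
        ring
      unfold Dn at h8 ⊢
      have h10 : ((j : ℝ) + 1) ≠ 0 := by positivity
      apply mul_left_cancel₀ h10
      rw [← h8]
      have h11 : ((E \ S).card : ℝ) = ((E.card - S.card : ℕ) : ℝ) := by rw [h3]
      rw [← mul_assoc, mul_comm ((j : ℝ) + 1), ← h4', ← h11]
      field_simp

/-! ### means -/

theorem choose_pos' {E : Finset (Fin n)} {a : ℕ} (h : a ≤ E.card) :
    (0 : ℝ) < ((E.card.choose a : ℕ) : ℝ) := by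
  exact_mod_cast Nat.choose_pos h

theorem Ex_le {E : Finset (Fin n)} {a : ℕ} {f g : Finset (Fin n) → ℝ}
    (h : ∀ S ⊆ E, S.card = a → f S ≤ g S) : Ex E a f ≤ Ex E a g := by
  unfold Ex
  refine div_le_div_of_nonneg_right (sum_le_sum fun S hS => ?_) (Nat.cast_nonneg _)
  rw [mem_powersetCard] at hS
  exact h S hS.1 hS.2

theorem Ex_congr {E : Finset (Fin n)} {a : ℕ} {f g : Finset (Fin n) → ℝ}
    (h : ∀ S ⊆ E, S.card = a → f S = g S) : Ex E a f = Ex E a g :=
  le_antisymm (Ex_le fun S hS hc => (h S hS hc).le) (Ex_le fun S hS hc => (h S hS hc).ge)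

theorem Ex_const {E : Finset (Fin n)} {a : ℕ} (ha : a ≤ E.card) (c : ℝ) :
    Ex E a (fun _ => c) = c := by
  unfold Ex
  rw [sum_const, card_powersetCard, nsmul_eq_mul]
  have := (choose_pos' ha).ne'
  field_simp

theorem Ex_lin (E : Finset (Fin n)) (a : ℕ) (f g : Finset (Fin n) → ℝ) (α γ : ℝ) :
    Ex E a (fun S => α * f S + γ * g S) = α * Ex E a f + γ * Ex E a g := by
  unfold Ex
  rw [sum_add_distrib, ← mul_sum, ← mul_sum]
  ring

theorem Ex_nonneg {E : Finset (Fin n)} {a : ℕ} {f : Finset (Fin n) → ℝ}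
    (h : ∀ S, 0 ≤ f S) : 0 ≤ Ex E a f := by
  unfold Ex
  exact div_nonneg (sum_nonneg fun S _ => h S) (Nat.cast_nonneg _)

theorem Ex_cs (E : Finset (Fin n)) (a : ℕ) (f g : Finset (Fin n) → ℝ) :
    Ex E a (fun S => f S * g S) ^ 2 ≤ Ex E a (fun S => f S ^ 2) * Ex E a (fun S => g S ^ 2) := by
  unfold Ex
  have h1 := sum_mul_sq_le_sq_mul_sq (powersetCard a E) f g
  rw [div_pow, div_mul_div_comm, ← pow_two]
  exact div_le_div_of_nonneg_right h1 (sq_nonneg _)

theorem Ex_adj (hA : SpaStatement) (E : Finset (Fin n)) (j : ℕ) : ∀ (a : ℕ)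
    (f h : Finset (Fin n) → ℝ), a + j ≤ E.card →
      Ex E a (fun S => (Dn E)^[j] f S * h S) = Ex E (a + j) (fun S => f S * Up^[j] h S) := by
  induction j with
  | zero => intro a f h _; rfl
  | succ j ih =>
      intro a f h ha
      have h1 := hA n E a ((Dn E)^[j] f) h (by omega)
      have h2 := ih (a + 1) f (Up h) (by omega)
      have h3 : a + 1 + j = a + (j + 1) := by omega
      rw [h3] at h2
      rw [Function.iterate_succ_apply', h1, h2]
      rfl

theorem spp_it (hP : SppStatement) (E : Finset (Fin n)) (a j : ℕ) (f : Finset (Fin n) → ℝ)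
    (hf : ∀ S ⊆ E, S.card = a → 0 ≤ (Dn E)^[j] f S) (i : ℕ) : 2 * (a + j + i) ≤ E.card →
      ∀ S ⊆ E, S.card = a → 0 ≤ (Dn E)^[j + i] (Up^[i] f) S := by
  induction i with
  | zero => intro _; exact hf
  | succ i ih =>
      intro hi
      have h1 := ih (by omega)
      have h2 := hP n E a (j + i) (by omega) (Up^[i] f) h1
      intro S hS hc
      rw [Function.iterate_succ_apply' Up]
      exact h2 S hS hc

theorem spe_proof (hA : SpaStatement) (hC : SpcStatement) (hP : SppStatement)
    (hD : SpdStatement) : SpeStatement := by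
  classical
  intro n E t v J Gs m η β τ ht hvJ h4 hN hGs hβ hτ hτ1 hη hS hm hJ hητ
  set N := E.card with hNdef
  set k := t + v + J with hk
  set f1 : Finset (Fin n) → ℝ := fun T => if T ∈ Gs then 1 else 0 with hf1
  set b := Ex E (t + v) f1 with hb
  set f0 : Finset (Fin n) → ℝ := fun T => 1 * f1 T + (-b) * (fun _ => (1 : ℝ)) T with hf0
  set F := Up^[J] f0 with hF
  set c : ℝ := (((N - (t - 1)).choose (v + 1) : ℕ) : ℝ) with hc
  have hcpos : 0 < c := by
    rw [hc]
    exact_mod_cast Nat.choose_pos (by omega)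
  set κ := m / c with hκ
  have hκβ : β ≤ κ := by rw [hκ, le_div_iff₀ hcpos]; exact hm
  have hκ0 : 0 < κ := lt_of_lt_of_le hβ hκβ
  -- the averages of `f1` over the supersets of the sets of size `t - 1`
  have hD1 : ∀ S ⊆ E, S.card = t - 1 → κ ≤ (Dn E)^[v + 1] f1 S ∧
      (Dn E)^[v + 1] f1 S ≤ (1 + η) * κ := by
    intro S hSE hSc
    have h1 := Dn_it E f1 (v + 1) S hSE (by omega)
    have h2 : ∑ T ∈ (powersetCard (S.card + (v + 1)) E).filter (fun T => S ⊆ T), f1 T =
        ((Gs.filter fun T => S ⊆ T).card : ℝ) := by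
      rw [hf1]
      simp only
      rw [← sum_filter, sum_const, nsmul_eq_mul, mul_one, filter_filter]
      congr 2
      ext T
      rw [mem_filter, mem_filter, mem_powersetCard]
      constructor
      · rintro ⟨_, a3, a4⟩; exact ⟨a4, a3⟩
      · rintro ⟨a1, a2⟩
        obtain ⟨b1, b2⟩ := hGs T a1
        exact ⟨⟨b1, by rw [b2]; omega⟩, a2, a1⟩
    rw [h2, hSc, ← hNdef, ← hc] at h1
    obtain ⟨h3, h4'⟩ := hS S hSE hSc
    rw [← h1] at h3 h4'
    constructor
    · rw [hκ, div_le_iff₀ hcpos, mul_comm]; exact h3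
    · rw [hκ, ← mul_div_assoc, le_div_iff₀ hcpos, mul_comm]; exact h4'
  -- its mean
  have hmean : Ex E (t - 1) (fun S => (Dn E)^[v + 1] f1 S) = b := by
    have h1 := Ex_adj hA E (v + 1) (t - 1) f1 (fun _ => 1) (by omega)
    have h2 : t - 1 + (v + 1) = t + v := by omega
    rw [h2] at h1
    rw [hb]
    have h3 : Ex E (t + v) (fun S => f1 S * Up^[v + 1] (fun _ => (1 : ℝ)) S) = Ex E (t + v) f1 := by
      refine Ex_congr fun S _ hSc => ?_
      rw [Up_const 1 (v + 1) S (by omega), mul_one]
    rw [← h3, ← h1]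
    refine Ex_congr fun S _ _ => ?_
    rw [mul_one]
  have hbκ : κ ≤ b := by
    rw [← hmean, ← Ex_const (E := E) (a := t - 1) (by omega) κ]
    exact Ex_le fun S hSE hSc => (hD1 S hSE hSc).1
  have hbκ2 : b ≤ (1 + η) * κ := by
    rw [← hmean, ← Ex_const (E := E) (a := t - 1) (by omega) ((1 + η) * κ)]
    exact Ex_le fun S hSE hSc => (hD1 S hSE hSc).2
  have hb0 : 0 < b := lt_of_lt_of_le hκ0 hbκ
  -- the averages of `F`
  have hG : ∀ S ⊆ E, S.card = t - 1 → κ ≤ (Dn E)^[v + 1 + J] (Up^[J] f1) S ∧
      (Dn E)^[v + 1 + J] (Up^[J] f1) S ≤ (1 + η) * κ := by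
    intro S hSE hSc
    have hone : (Dn E)^[v + 1] (fun _ => (1 : ℝ)) S = 1 := Dn_const E 1 (v + 1) S hSE (by omega)
    have hone2 : (Dn E)^[v + 1 + J] (Up^[J] (fun _ => (1 : ℝ))) S = 1 := by
      rw [Dn_congr_it (f := Up^[J] (fun _ => (1 : ℝ))) (g := fun _ => (1 : ℝ)) (v + 1 + J) (t - 1)
        (fun T _ hTc => Up_const 1 J T (by omega)) S hSE hSc]
      exact Dn_const E 1 _ S hSE (by omega)
    constructor
    · have h1 := spp_it hP E (t - 1) (v + 1) (fun T => 1 * f1 T + (-κ) * (fun _ => (1 : ℝ)) T)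
        (by
          intro S' hS' hS'c
          rw [Dn_lin_it]
          simp only
          rw [Dn_const E 1 (v + 1) S' hS' (by omega)]
          have := (hD1 S' hS' hS'c).1
          linarith) J (by omega) S hSE hSc
      rw [Up_lin_it, Dn_lin_it] at h1
      simp only at h1
      rw [hone2] at h1
      linarith
    · have h1 := spp_it hP E (t - 1) (v + 1)
        (fun T => (-1) * f1 T + ((1 + η) * κ) * (fun _ => (1 : ℝ)) T)
        (by
          intro S' hS' hS'c
          rw [Dn_lin_it]
          simp only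
          rw [Dn_const E 1 (v + 1) S' hS' (by omega)]
          have := (hD1 S' hS' hS'c).2
          linarith) J (by omega) S hSE hSc
      rw [Up_lin_it, Dn_lin_it] at h1
      simp only at h1
      rw [hone2] at h1
      linarith
  have hFS : ∀ S ⊆ E, S.card = t - 1 → ((Dn E)^[v + 1 + J] F S) ^ 2 ≤ η ^ 2 * b ^ 2 := by
    intro S hSE hSc
    have hone2 : (Dn E)^[v + 1 + J] (Up^[J] (fun _ => (1 : ℝ))) S = 1 := by
      rw [Dn_congr_it (f := Up^[J] (fun _ => (1 : ℝ))) (g := fun _ => (1 : ℝ)) (v + 1 + J) (t - 1)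
        (fun T _ hTc => Up_const 1 J T (by omega)) S hSE hSc]
      exact Dn_const E 1 _ S hSE (by omega)
    rw [hF, hf0, Up_lin_it, Dn_lin_it]
    simp only
    rw [hone2]
    obtain ⟨h1, h2⟩ := hG S hSE hSc
    have h3 : η * κ ≤ η * b := mul_le_mul_of_nonneg_left hbκ hη
    rw [← mul_pow]
    apply sq_le_sq'
    · linarith
    · linarith
  -- the sequence
  set V : ℕ → ℝ := fun a => Ex E a (fun S => ((Dn E)^[k - a] F S) ^ 2) with hV
  have hVstep : ∀ a, 1 ≤ a → a ≤ k → ∀ S, (Dn E)^[k - (a - 1)] F S =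
      Dn E ((Dn E)^[k - a] F) S := by
    intro a ha hak S
    have h1 : k - (a - 1) = (k - a) + 1 := by omega
    rw [h1, Function.iterate_succ_apply']
  have hVk := hD N t v J V η β τ b ht hvJ h4 hN (fun a => Ex_nonneg fun S => sq_nonneg _)
    (by
      intro a ha hak
      have h1 := (hC n E a ((Dn E)^[k - a] F) (by omega) (by omega)).2
      rw [hV]
      simp only
      simp_rw [hVstep a (by omega) hak]
      exact h1)
    (by
      intro a ha hak
      have h1 := (hC n E a ((Dn E)^[k - a] F) (by omega) (by omega)).1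
      rw [hV]
      simp only
      have h2 : ∀ S, (Dn E)^[k - (a - 2)] F S = Dn E (Dn E ((Dn E)^[k - a] F)) S := by
        intro S
        have h3 : k - (a - 2) = (k - a) + 1 + 1 := by omega
        rw [h3, Function.iterate_succ_apply', Function.iterate_succ_apply']
      simp_rw [hVstep a (by omega) hak, h2]
      exact h1)
    hβ (hκβ.trans hbκ) hτ hτ1
    (by
      -- `V k ^ 2 ≤ b * V (t + v)`
      have h1 : V k = Ex E (t + v) (fun S => (Dn E)^[J] F S * f0 S) := by
        rw [Ex_adj hA E J (t + v) F f0 (by omega)]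
        rw [hV]
        simp only
        rw [Nat.sub_self]
        refine Ex_congr fun S _ _ => ?_
        rw [Function.iterate_zero, id_eq, ← hF]
        ring
      have h2 : Ex E (t + v) (fun S => f0 S ^ 2) ≤ b := by
        have h3 : Ex E (t + v) (fun S => f0 S ^ 2) =
            (1 - 2 * b) * Ex E (t + v) f1 + b ^ 2 * Ex E (t + v) (fun _ => 1) := by
          rw [← Ex_lin]
          refine Ex_congr fun S _ _ => ?_
          rw [hf0, hf1]
          simp only
          split_ifs <;> ring
        rw [h3, Ex_const (by omega), ← hb]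
        nlinarith [sq_nonneg b]
      have h4' : V (t + v) = Ex E (t + v) (fun S => (Dn E)^[J] F S ^ 2) := by
        rw [hV]
        simp only
        have : k - (t + v) = J := by omega
        rw [this]
      rw [← hk, h1, h4']
      calc Ex E (t + v) (fun S => (Dn E)^[J] F S * f0 S) ^ 2 ≤
          Ex E (t + v) (fun S => (Dn E)^[J] F S ^ 2) * Ex E (t + v) (fun S => f0 S ^ 2) :=
            Ex_cs _ _ _ _
        _ ≤ Ex E (t + v) (fun S => (Dn E)^[J] F S ^ 2) * b :=
            mul_le_mul_of_nonneg_left h2 (Ex_nonneg fun S => sq_nonneg _)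
        _ = _ := mul_comm _ _)
    (by
      rw [hV]
      simp only
      rw [← Ex_const (E := E) (a := t - 1) (by omega) (η ^ 2 * b ^ 2)]
      refine Ex_le fun S hSE hSc => ?_
      have : k - (t - 1) = v + 1 + J := by omega
      rw [this]
      exact hFS S hSE hSc)
    hJ hητ
  -- conclusion
  rw [← hk] at hVk
  have hVk2 : V k = Ex E k (fun S => F S ^ 2) := by
    rw [hV]
    simp only
    rw [Nat.sub_self]
    rfl
  have hsum : ((((powersetCard k E).filter fun P => ∀ T ∈ Gs, ¬ T ⊆ P).card : ℕ) : ℝ) * b ^ 2 ≤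
      ((N.choose k : ℕ) : ℝ) * V k := by
    rw [hVk2]
    unfold Ex
    rw [mul_div_cancel₀ _ (choose_pos' (by omega)).ne']
    calc ((((powersetCard k E).filter fun P => ∀ T ∈ Gs, ¬ T ⊆ P).card : ℕ) : ℝ) * b ^ 2
        = ∑ P ∈ (powersetCard k E).filter (fun P => ∀ T ∈ Gs, ¬ T ⊆ P), b ^ 2 := by
          rw [sum_const, nsmul_eq_mul]
      _ = ∑ P ∈ (powersetCard k E).filter (fun P => ∀ T ∈ Gs, ¬ T ⊆ P), F P ^ 2 := by
          refine sum_congr rfl fun P hP' => ?_
          rw [mem_filter, mem_powersetCard] at hP'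
          obtain ⟨⟨a1, a2⟩, a3⟩ := hP'
          have h1 : F P = -b := by
            rw [hF, hf0, Up_lin_it]
            simp only
            rw [Up_zero f1 J P (by
              intro T hT
              rw [hf1]
              simp only
              rw [if_neg]
              exact fun hT' => a3 T hT' hT), Up_const 1 J P (by omega)]
            ring
          rw [h1]
          ring
      _ ≤ ∑ P ∈ powersetCard k E, F P ^ 2 :=
          sum_le_sum_of_subset_of_nonneg (filter_subset _ _) fun _ _ _ => sq_nonneg _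
  have hb2 : 0 < b ^ 2 := by positivity
  have h5 : ((((powersetCard k E).filter fun P => ∀ T ∈ Gs, ¬ T ⊆ P).card : ℕ) : ℝ) * b ^ 2 ≤
      (τ * ((N.choose k : ℕ) : ℝ)) * b ^ 2 := by
    calc _ ≤ ((N.choose k : ℕ) : ℝ) * V k := hsum
      _ ≤ ((N.choose k : ℕ) : ℝ) * (τ * b ^ 2) :=
          mul_le_mul_of_nonneg_left hVk (Nat.cast_nonneg _)
      _ = _ := by ring
  exact le_of_mul_le_mul_right h5 hb2

end Pool.Agent.SymDiam.HS
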