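import Pool.Agent.Lib.MP_7b6720_al.HS.Defs

/-!
# MP_7b6720_al, board HS, row SPA: adjointness of the averaging operators
-/

set_option autoImplicit false

namespace Pool.Agent.SymDiam.HS

open Finset

theorem spa_double {n : ℕ} (E : Finset (Fin n)) (a : ℕ) (f h : Finset (Fin n) → ℝ) :
    ∑ S ∈ powersetCard a E, ∑ x ∈ E \ S, f (insert x S) * h S =
      ∑ S ∈ powersetCard (a + 1) E, ∑ x ∈ S, f S * h (S.erase x) := by
  rw [Finset.sum_sigma', Finset.sum_sigma']
  refine Finset.sum_bij' (fun p _ => ⟨insert p.2 p.1, p.2⟩) (fun p _ => ⟨p.1.erase p.2, p.2⟩)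
    ?_ ?_ ?_ ?_ ?_
  · rintro ⟨S, x⟩ hp
    simp only [Finset.mem_sigma, Finset.mem_powersetCard, Finset.mem_sdiff] at hp ⊢
    obtain ⟨⟨h1, h2⟩, h3, h4⟩ := hp
    refine ⟨⟨Finset.insert_subset h3 h1, ?_⟩, Finset.mem_insert_self _ _⟩
    rw [Finset.card_insert_of_notMem h4, h2]
  · rintro ⟨S, x⟩ hp
    simp only [Finset.mem_sigma, Finset.mem_powersetCard, Finset.mem_sdiff] at hp ⊢
    obtain ⟨⟨h1, h2⟩, h3⟩ := hp
    refine ⟨⟨(Finset.erase_subset _ _).trans h1, ?_⟩, h1 h3, Finset.notMem_erase _ _⟩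
    rw [Finset.card_erase_of_mem h3, h2, Nat.add_sub_cancel]
  · rintro ⟨S, x⟩ hp
    simp only [Finset.mem_sigma, Finset.mem_powersetCard, Finset.mem_sdiff] at hp
    obtain ⟨-, -, h4⟩ := hp
    show (⟨(insert x S).erase x, x⟩ : Σ _ : Finset (Fin n), Fin n) = ⟨S, x⟩
    rw [Finset.erase_insert h4]
  · rintro ⟨S, x⟩ hp
    simp only [Finset.mem_sigma, Finset.mem_powersetCard] at hp
    show (⟨insert x (S.erase x), x⟩ : Σ _ : Finset (Fin n), Fin n) = ⟨S, x⟩
    rw [Finset.insert_erase hp.2]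
  · rintro ⟨S, x⟩ hp
    simp only [Finset.mem_sigma, Finset.mem_powersetCard, Finset.mem_sdiff] at hp
    obtain ⟨-, -, h4⟩ := hp
    show f (insert x S) * h S = f (insert x S) * h ((insert x S).erase x)
    rw [Finset.erase_insert h4]

theorem spa_proof : SpaStatement := by
  intro n E a f h ha
  have hl : ∑ S ∈ powersetCard a E, Dn E f S * h S =
      (∑ S ∈ powersetCard a E, ∑ x ∈ E \ S, f (insert x S) * h S) / ((E.card - a : ℕ) : ℝ) := by
    rw [Finset.sum_div]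
    refine Finset.sum_congr rfl fun S hS => ?_
    obtain ⟨h1, h2⟩ := Finset.mem_powersetCard.1 hS
    unfold Dn
    rw [Finset.card_sdiff_of_subset h1, h2, ← Finset.sum_mul]
    ring
  have hr : ∑ S ∈ powersetCard (a + 1) E, f S * Up h S =
      (∑ S ∈ powersetCard (a + 1) E, ∑ x ∈ S, f S * h (S.erase x)) / ((a + 1 : ℕ) : ℝ) := by
    rw [Finset.sum_div]
    refine Finset.sum_congr rfl fun S hS => ?_
    obtain ⟨h1, h2⟩ := Finset.mem_powersetCard.1 hS
    unfold Up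
    rw [h2, ← Finset.mul_sum]
    ring
  unfold Ex
  rw [hl, hr, spa_double, div_div, div_div]
  congr 1
  have h3 := Nat.choose_succ_right_eq E.card a
  rw [← Nat.cast_mul, ← Nat.cast_mul]
  congr 1
  rw [mul_comm (E.card - a), mul_comm (a + 1), h3]

end Pool.Agent.SymDiam.HS
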