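import Pool.Agent.Lib.MP_7b6720_al.HS.Defs

set_option autoImplicit false

/-!
# Row SPB: the commutation identity of the two averaging operators
-/

namespace Pool.Agent.SymDiam.HS

open Finset

/-- Row SPB. -/
theorem spb_proof : SpbStatement := by
  intro n E f S hS hlt
  classical
  set N : ℝ := (E.card : ℝ) with hN
  set s : ℝ := (S.card : ℝ) with hs
  set D : ℝ := ∑ x ∈ E \ S, ∑ y ∈ S, f (insert x (S.erase y)) with hD
  have hltR : s < N := by
    rw [hN, hs]
    exact_mod_cast hlt
  have hs0 : 0 ≤ s := by
    rw [hs]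
    exact Nat.cast_nonneg _
  have hsd : ((E \ S).card : ℝ) = N - s := by
    rw [card_sdiff_of_subset hS, Nat.cast_sub (card_le_card hS)]
  -- the left side
  have h1 : (N - s) * (s + 1) * Dn E (Up f) S = (N - s) * f S + D := by
    have e1 : ∀ x ∈ E \ S, (s + 1) * Up f (insert x S) =
        f S + ∑ y ∈ S, f (insert x (S.erase y)) := by
      intro x hx
      have hxS : x ∉ S := (mem_sdiff.1 hx).2
      have e2 : ((insert x S).card : ℝ) = s + 1 := by
        rw [card_insert_of_notMem hxS, Nat.cast_add, Nat.cast_one]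
      unfold Up
      rw [e2, mul_div_cancel₀ _ (by linarith : s + 1 ≠ 0), sum_insert hxS,
        erase_insert hxS]
      congr 1
      refine sum_congr rfl fun y hy => ?_
      have hne : x ≠ y := fun h => hxS (h ▸ hy)
      rw [erase_insert_of_ne hne]
    have e3 : (N - s) * Dn E (Up f) S = ∑ x ∈ E \ S, Up f (insert x S) := by
      unfold Dn
      rw [hsd, mul_div_cancel₀ _ (by linarith : N - s ≠ 0)]
    calc (N - s) * (s + 1) * Dn E (Up f) S = (s + 1) * ((N - s) * Dn E (Up f) S) := by ring
      _ = ∑ x ∈ E \ S, (s + 1) * Up f (insert x S) := by rw [e3, mul_sum]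
      _ = ∑ x ∈ E \ S, (f S + ∑ y ∈ S, f (insert x (S.erase y))) := sum_congr rfl e1
      _ = (N - s) * f S + D := by
        rw [sum_add_distrib, sum_const, nsmul_eq_mul, hsd]
  -- the right side
  have h2 : s * (N - s + 1) * Up (Dn E f) S = s * f S + D := by
    have e1 : ∀ y ∈ S, (N - s + 1) * Dn E f (S.erase y) =
        f S + ∑ x ∈ E \ S, f (insert x (S.erase y)) := by
      intro y hy
      have e0 : E \ S.erase y = insert y (E \ S) := by
        ext z
        simp only [mem_sdiff, mem_erase, mem_insert, ne_eq, not_and]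
        constructor
        · rintro ⟨h1, h2⟩
          by_cases hz : z = y
          · exact Or.inl hz
          · exact Or.inr ⟨h1, h2 hz⟩
        · rintro (rfl | ⟨h1, h2⟩)
          · exact ⟨hS hy, fun h => absurd rfl h⟩
          · exact ⟨h1, fun _ => h2⟩
      have hyn : y ∉ E \ S := fun h => (mem_sdiff.1 h).2 hy
      have e2 : ((E \ S.erase y).card : ℝ) = N - s + 1 := by
        rw [e0, card_insert_of_notMem hyn, Nat.cast_add, Nat.cast_one, hsd]
      unfold Dn
      rw [e2, mul_div_cancel₀ _ (by linarith : N - s + 1 ≠ 0), e0, sum_insert hyn,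
        insert_erase hy]
    have e3 : s * Up (Dn E f) S = ∑ y ∈ S, Dn E f (S.erase y) := by
      unfold Up
      by_cases h0 : s = 0
      · have hS0 : S = ∅ := by
          rw [← card_eq_zero]
          rw [hs] at h0
          exact_mod_cast h0
        rw [h0, hS0]
        simp
      · rw [mul_div_cancel₀ _ h0]
    calc s * (N - s + 1) * Up (Dn E f) S = (N - s + 1) * (s * Up (Dn E f) S) := by ring
      _ = ∑ y ∈ S, (N - s + 1) * Dn E f (S.erase y) := by rw [e3, mul_sum]
      _ = ∑ y ∈ S, (f S + ∑ x ∈ E \ S, f (insert x (S.erase y))) := sum_congr rfl e1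
      _ = s * f S + D := by
        rw [sum_add_distrib, sum_const, nsmul_eq_mul, hD, sum_comm]
  rw [h1, h2]
  ring

end Pool.Agent.SymDiam.HS
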