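import Pool.Agent.Lib.MP_7b6720_al.HS.Defs

set_option autoImplicit false

/-!
# Row SPC: the inequality for three levels
-/

namespace Pool.Agent.SymDiam.HS

open Finset

theorem Spc.ex_mono {n : ℕ} {E : Finset (Fin n)} {a : ℕ} {f g : Finset (Fin n) → ℝ}
    (h : ∀ S ∈ powersetCard a E, f S ≤ g S) : Ex E a f ≤ Ex E a g := by
  unfold Ex
  exact div_le_div_of_nonneg_right (sum_le_sum h) (Nat.cast_nonneg _)

theorem Spc.ex_congr {n : ℕ} {E : Finset (Fin n)} {a : ℕ} {f g : Finset (Fin n) → ℝ}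
    (h : ∀ S ∈ powersetCard a E, f S = g S) : Ex E a f = Ex E a g := by
  unfold Ex
  rw [sum_congr rfl h]

theorem Spc.ex_add {n : ℕ} (E : Finset (Fin n)) (a : ℕ) (f g : Finset (Fin n) → ℝ) :
    Ex E a (fun S => f S + g S) = Ex E a f + Ex E a g := by
  unfold Ex
  rw [sum_add_distrib, add_div]

theorem Spc.ex_mul {n : ℕ} (E : Finset (Fin n)) (a : ℕ) (c : ℝ) (f : Finset (Fin n) → ℝ) :
    Ex E a (fun S => c * f S) = c * Ex E a f := by
  unfold Ex
  rw [← mul_sum, mul_div_assoc]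

theorem Spc.ex_nonneg {n : ℕ} {E : Finset (Fin n)} {a : ℕ} {f : Finset (Fin n) → ℝ}
    (h : ∀ S ∈ powersetCard a E, 0 ≤ f S) : 0 ≤ Ex E a f := by
  unfold Ex
  exact div_nonneg (sum_nonneg h) (Nat.cast_nonneg _)

/-- The Cauchy-Schwarz inequality. -/
theorem Spc.ex_cs {n : ℕ} (E : Finset (Fin n)) (a : ℕ) (f g : Finset (Fin n) → ℝ) :
    Ex E a (fun S => f S * g S) ^ 2 ≤ Ex E a (fun S => f S ^ 2) * Ex E a (fun S => g S ^ 2) := by
  unfold Ex
  rw [div_pow, div_mul_div_comm, ← pow_two]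
  exact div_le_div_of_nonneg_right (sum_mul_sq_le_sq_mul_sq _ _ _) (sq_nonneg _)

/-- Jensen. -/
theorem Spc.dn_sq {n : ℕ} (E : Finset (Fin n)) (f : Finset (Fin n) → ℝ) (S : Finset (Fin n)) :
    Dn E f S ^ 2 ≤ Dn E (fun T => f T ^ 2) S := by
  unfold Dn
  by_cases h0 : ((E \ S).card : ℝ) = 0
  · rw [h0]
    simp
  · have hpos : 0 < ((E \ S).card : ℝ) := lt_of_le_of_ne (Nat.cast_nonneg _) (Ne.symm h0)
    rw [div_pow, div_le_div_iff₀ (by positivity) hpos]
    have h1 := sq_sum_le_card_mul_sum_sq (s := E \ S) (f := fun x => f (insert x S))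
    calc (∑ x ∈ E \ S, f (insert x S)) ^ 2 * ((E \ S).card : ℝ)
        ≤ (((E \ S).card : ℝ) * ∑ x ∈ E \ S, f (insert x S) ^ 2) * ((E \ S).card : ℝ) :=
          mul_le_mul_of_nonneg_right h1 hpos.le
      _ = (∑ x ∈ E \ S, f (insert x S) ^ 2) * ((E \ S).card : ℝ) ^ 2 := by ring

/-- Row SPC. -/
theorem spc_proof (hA : SpaStatement) (hB : SpbStatement) : SpcStatement := by
  intro n E a f ha hN
  classical
  set N : ℝ := (E.card : ℝ) with hNdef
  have haN : (2 * (a : ℝ)) ≤ N := by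
    rw [hNdef]
    exact_mod_cast hN
  have ha2 : (2 : ℝ) ≤ a := by exact_mod_cast ha
  have ha1 : a - 1 + 1 = a := by omega
  have ha3 : a - 2 + 1 = a - 1 := by omega
  have hlt1 : a - 1 < E.card := by omega
  have hlt2 : a - 2 < E.card := by omega
  set g : Finset (Fin n) → ℝ := Dn E f with hg
  -- (1)
  have e1 : Ex E (a - 1) (fun S => g S ^ 2) = Ex E a (fun S => f S * Up g S) := by
    have := hA n E (a - 1) f g hlt1
    rw [ha1] at this
    rw [← this]
    exact Spc.ex_congr fun S _ => pow_two _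
  -- (3)
  have e3 : Ex E a (fun S => Up g S ^ 2) = Ex E (a - 1) (fun S => Dn E (Up g) S * g S) := by
    have := hA n E (a - 1) (Up g) g hlt1
    rw [ha1] at this
    rw [this]
    exact Spc.ex_congr fun S _ => pow_two _
  -- (5)
  have e5 : Ex E (a - 1) (fun S => g S * Up (Dn E g) S) =
      Ex E (a - 2) (fun S => Dn E g S ^ 2) := by
    have := hA n E (a - 2) g (Dn E g) hlt2
    rw [ha3] at this
    rw [← this]
    exact Spc.ex_congr fun S _ => (pow_two _).symm
  -- (4)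
  have e4 : (a : ℝ) * (N - a + 1) * Ex E a (fun S => Up g S ^ 2) =
      ((a : ℝ) - 1) * (N - a + 2) * Ex E (a - 2) (fun S => Dn E g S ^ 2) +
        (N - 2 * a + 2) * Ex E (a - 1) (fun S => g S ^ 2) := by
    rw [e3, ← e5, ← Spc.ex_mul, ← Spc.ex_mul, ← Spc.ex_mul, ← Spc.ex_add]
    refine Spc.ex_congr fun S hS => ?_
    obtain ⟨hSE, hSc⟩ := mem_powersetCard.1 hS
    have h1 := hB n E g S hSE (by rw [hSc]; exact hlt1)
    have h2 : ((S.card : ℕ) : ℝ) = (a : ℝ) - 1 := by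
      rw [hSc, Nat.cast_sub (by omega : 1 ≤ a), Nat.cast_one]
    rw [h2] at h1
    have h3 := congrArg (fun z => z * g S) h1
    have e : (a : ℝ) * (N - a + 1) * (Dn E (Up g) S * g S) =
        (N - ((a : ℝ) - 1)) * (((a : ℝ) - 1) + 1) * Dn E (Up g) S * g S := by ring
    rw [e, h3]
    ring
  constructor
  · have hcs := Spc.ex_cs E a f (Up g)
    have hc : 0 ≤ (a : ℝ) * (N - a + 1) := mul_nonneg (by linarith) (by linarith)
    rw [e1]
    calc (a : ℝ) * (N - a + 1) * Ex E a (fun S => f S * Up g S) ^ 2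
        ≤ (a : ℝ) * (N - a + 1) *
            (Ex E a (fun S => f S ^ 2) * Ex E a (fun S => Up g S ^ 2)) :=
          mul_le_mul_of_nonneg_left hcs hc
      _ = Ex E a (fun S => f S ^ 2) * ((a : ℝ) * (N - a + 1) * Ex E a (fun S => Up g S ^ 2)) := by
          ring
      _ = _ := by rw [e4, e1]
  · have h1 : Ex E (a - 1) (fun S => g S ^ 2) ≤
        Ex E (a - 1) (fun S => Dn E (fun T => f T ^ 2) S * (fun _ => (1 : ℝ)) S) := by
      refine Spc.ex_mono fun S _ => ?_
      simp only [mul_one]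
      exact Spc.dn_sq E f S
    have h2 := hA n E (a - 1) (fun T => f T ^ 2) (fun _ => (1 : ℝ)) hlt1
    rw [ha1] at h2
    refine h1.trans (h2.trans_le ?_)
    refine Spc.ex_mono fun S hS => ?_
    obtain ⟨hSE, hSc⟩ := mem_powersetCard.1 hS
    have h3 : Up (fun _ : Finset (Fin n) => (1 : ℝ)) S = 1 := by
      unfold Up
      rw [sum_const, nsmul_eq_mul, mul_one, div_self]
      rw [hSc]
      exact_mod_cast (by omega : a ≠ 0)
    rw [h3, mul_one]

end Pool.Agent.SymDiam.HS
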