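import Pool.Agent.Lib.MP_7b6720_al.HS.Defs

set_option autoImplicit false

/-!
# Row SPP: positivity
-/

namespace Pool.Agent.SymDiam.HS

open Finset

/-- `(Dn E)^[i] h S` depends only on the values on the sets of size `|S| + i`, linearly. -/
theorem Spp.iter_lin {n : ℕ} (E : Finset (Fin n)) (α β : ℝ) (h h1 h2 : Finset (Fin n) → ℝ)
    (i : ℕ) : ∀ a : ℕ, (∀ T ⊆ E, T.card = a + i → h T = α * h1 T + β * h2 T) →
    ∀ S ⊆ E, S.card = a →
      (Dn E)^[i] h S = α * (Dn E)^[i] h1 S + β * (Dn E)^[i] h2 S := by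
  induction i with
  | zero =>
    intro a hT S hS hc
    exact hT S hS (by rw [hc, add_zero])
  | succ i ih =>
    intro a hT S hS hc
    classical
    rw [Function.iterate_succ_apply', Function.iterate_succ_apply', Function.iterate_succ_apply']
    have e1 : ∀ x ∈ E \ S, (Dn E)^[i] h (insert x S) =
        α * (Dn E)^[i] h1 (insert x S) + β * (Dn E)^[i] h2 (insert x S) := by
      intro x hx
      obtain ⟨hxE, hxS⟩ := mem_sdiff.1 hx
      refine ih (a + 1) (fun T hTE hTc => hT T hTE (by rw [hTc]; ring)) _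
        (insert_subset hxE hS) ?_
      rw [card_insert_of_notMem hxS, hc]
    have d : ∀ f : Finset (Fin n) → ℝ,
        Dn E f S = (∑ x ∈ E \ S, f (insert x S)) / ((E \ S).card : ℝ) := fun f => rfl
    rw [d, d, d, sum_congr rfl e1, sum_add_distrib, ← mul_sum, ← mul_sum, add_div, mul_div_assoc,
      mul_div_assoc]

/-- Row SPP. -/
theorem spp_proof (hB : SpbStatement) : SppStatement := by
  intro n E a j
  induction j with
  | zero =>
    intro hj f hf S hS hc
    classical
    rw [zero_add, Function.iterate_one]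
    unfold Dn
    refine div_nonneg (sum_nonneg fun x hx => ?_) (Nat.cast_nonneg _)
    obtain ⟨hxE, hxS⟩ := mem_sdiff.1 hx
    unfold Up
    refine div_nonneg (sum_nonneg fun y hy => ?_) (Nat.cast_nonneg _)
    refine hf _ ((erase_subset _ _).trans (insert_subset hxE hS)) ?_
    rw [card_erase_of_mem hy, card_insert_of_notMem hxS, hc, Nat.add_sub_cancel]
  | succ j ih =>
    intro hj f hf S hS hc
    have hN : (2 * ((a : ℝ) + j + 2)) ≤ (E.card : ℝ) := by
      have : 2 * (a + (j + 1) + 1) ≤ E.card := hj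
      have h' : ((2 * (a + (j + 1) + 1) : ℕ) : ℝ) ≤ (E.card : ℝ) := by exact_mod_cast this
      push_cast at h'
      linarith
    set N : ℝ := (E.card : ℝ) with hNdef
    set s : ℝ := (a : ℝ) + j + 1 with hs
    have ha0 : (0 : ℝ) ≤ a := Nat.cast_nonneg _
    have hj0 : (0 : ℝ) ≤ j := Nat.cast_nonneg _
    have hs0 : 0 < s := by rw [hs]; linarith
    have hsN : 2 * s + 2 ≤ N := by rw [hs]; linarith
    have hden : 0 < (N - s) * (s + 1) := mul_pos (by linarith) (by linarith)
    have hlin := Spp.iter_lin E (s * (N - s + 1) / ((N - s) * (s + 1)))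
      ((N - 2 * s) / ((N - s) * (s + 1))) (Dn E (Up f)) (Up (Dn E f)) f (j + 1) a
      (fun T hT hTc => by
        have h1 := hB n E f T hT (by rw [hTc]; omega)
        have h2 : ((T.card : ℕ) : ℝ) = s := by
          rw [hTc, hs]
          push_cast
          ring
        rw [h2] at h1
        have h3 : Dn E (Up f) T = ((N - s) * (s + 1) * Dn E (Up f) T) / ((N - s) * (s + 1)) := by
          rw [mul_div_cancel_left₀ _ hden.ne']
        rw [h3, h1]
        ring) S hS hc
    rw [Function.iterate_succ_apply, hlin]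
    have h4 : 0 ≤ (Dn E)^[j + 1] (Up (Dn E f)) S := by
      refine ih (by omega) (Dn E f) (fun T hT hTc => ?_) S hS hc
      rw [← Function.iterate_succ_apply]
      exact hf T hT hTc
    have h5 : 0 ≤ (Dn E)^[j + 1] f S := hf S hS hc
    exact add_nonneg (mul_nonneg (div_nonneg (mul_nonneg hs0.le (by linarith)) hden.le) h4)
      (mul_nonneg (div_nonneg (by linarith) hden.le) h5)

end Pool.Agent.SymDiam.HS
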