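import Pool.Agent.Lib.MP_7b6720_al.HS.Defs

set_option autoImplicit false

/-!
# Row SUC
-/

namespace Pool.Agent.SymDiam.HS

open Equiv Finset Pool.Agent.SymDiam.EX

/-- two points outside the range of `f` are in one class of the graph of the short elements that
fix the range of `f` -/
theorem suc_reach (h : SchStatement) {n t r : ℕ} {A : Set (Perm (Fin n))}
    (hA : alternatingGroup (Fin n) ≤ Subgroup.closure A) (ht : t + 3 ≤ n) (hT : Tr A t r)
    (f : Fin t ↪ Fin n) {a b : Fin n} (ha : ∀ i, f i ≠ a) (hb : ∀ i, f i ≠ b) :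
    (gr A (2 * r + 1) (univ.map f)).Reachable a b := by
  classical
  by_cases hab : a = b
  · rw [hab]
  -- a third point
  obtain ⟨c, hc⟩ : ∃ c : Fin n, c ∉ insert a (insert b (univ.map f)) := by
    by_contra hcon
    push Not at hcon
    have h1 : (insert a (insert b (univ.map f)) : Finset (Fin n)) = univ :=
      eq_univ_of_forall hcon
    have h2 : (insert a (insert b (univ.map f)) : Finset (Fin n)).card ≤ t + 2 := by
      refine (card_insert_le _ _).trans ?_
      have h3 := card_insert_le b (univ.map f)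
      rw [card_map, card_univ, Fintype.card_fin] at h3
      omega
    rw [h1, card_univ, Fintype.card_fin] at h2
    omega
  rw [mem_insert, mem_insert, mem_map, not_or, not_or] at hc
  obtain ⟨hca, hcb, hcf⟩ := hc
  have hcf' : ∀ i, f i ≠ c := fun i hi => hcf ⟨i, mem_univ _, hi⟩
  set σ : Perm (Fin n) := swap a b * swap b c with hσ
  have hσa : σ a = b := by
    rw [hσ, Perm.mul_apply, swap_apply_of_ne_of_ne hab (Ne.symm hca), swap_apply_left]
  have hσf : Maps f f σ := by
    intro i
    rw [hσ, Perm.mul_apply, swap_apply_of_ne_of_ne (hb i) (hcf' i),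
      swap_apply_of_ne_of_ne (ha i) (hb i)]
  have hσA : σ ∈ Subgroup.closure A := by
    apply hA
    rw [Perm.mem_alternatingGroup, hσ, Perm.sign_mul, Perm.sign_swap hab,
      Perm.sign_swap (Ne.symm hcb)]
    norm_num
  have h1 := h n t r A hT f σ hσA hσf
  have h2 : ∀ x ∈ Subgroup.closure {x | InBall A (2 * r + 1) x ∧ Maps f f x},
      ∀ p, (gr A (2 * r + 1) (univ.map f)).Reachable p (x p) := by
    intro x hx
    induction hx using Subgroup.closure_induction with
    | mem x hx =>
      intro p
      refine gr_step hx.1 (fun q hq => ?_) p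
      obtain ⟨i, -, rfl⟩ := mem_map.1 hq
      exact hx.2 i
    | one => intro p; exact SimpleGraph.Reachable.refl _
    | mul x y _ _ hx hy => intro p; exact (hy p).trans (hx (y p))
    | inv x _ hx =>
      intro p
      have h3 := hx (x⁻¹ p)
      have h4 : x (x⁻¹ p) = p := Equiv.apply_symm_apply x p
      rw [h4] at h3
      exact h3.symm
  have h3 := h2 σ h1 a
  rw [hσa] at h3
  exact h3

/-- Row SUC. -/
theorem suc_proof (h : SchStatement) : SucStatement := by
  classical
  intro n t r A hA ht hT e e'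
  set e0 : Fin t ↪ Fin n := Fin.castSuccEmb.trans e with he0
  set f : Fin t ↪ Fin n := Fin.castSuccEmb.trans e' with hf
  obtain ⟨g1, hg1, hm1⟩ := hT e0 f
  have hm1' : ∀ i : Fin t, g1 (e (Fin.castSucc i)) = e' (Fin.castSucc i) := fun i => hm1 i
  have ha : ∀ i, f i ≠ g1 (e (Fin.last t)) := by
    intro i hi
    have h1 : g1 (e (Fin.castSucc i)) = g1 (e (Fin.last t)) := (hm1' i).trans hi
    exact (Fin.castSucc_lt_last i).ne (e.injective (g1.injective h1))
  have hb : ∀ i, f i ≠ e' (Fin.last t) := by
    intro i hi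
    exact (Fin.castSucc_lt_last i).ne (e'.injective hi)
  obtain ⟨g2, hg2, hfix, hmap⟩ := gr_reach (suc_reach h hA ht hT f ha hb)
  refine ⟨g2 * g1, (hg2.mul hg1).mono (by omega), fun i => ?_⟩
  rw [Perm.mul_apply]
  refine Fin.lastCases ?_ (fun j => ?_) i
  · exact hmap
  · rw [hm1' j]
    exact hfix _ (mem_map.2 ⟨j, mem_univ _, rfl⟩)

end Pool.Agent.SymDiam.HS
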