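import Pool.Agent.Lib.MP_7b6720_al.LB.EX.Flat

set_option autoImplicit false

/-!
# The diameter of Cayley graphs of the symmetric groups: definitions and statements of the rows

Goal: `diam ≤ exp (C (log n) ^ 3 (log log n) ^ 2)` for all generating sets of `Sym(n)`.

`InBall A r x`, `Maps`, `Mixing n k W`, `wt`, `cj` are in `INV/Defs.lean`; `InBall.mono`, `InBall.mul`,
`InBall.inv`, `InBall.cj`, `Mixing.mono` in `INV/Ball.lean`; `gr A l S` (graph on the points: two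
points are adjacent if an element of the ball of radius `l` that fixes `S` pointwise maps one to the
other), `gr_step`, `gr_walk`, `gr_reach`, `kill` in `LB/EX/Kill.lean`.
-/

namespace Pool.Agent.SymDiam.HS

open Equiv Finset Pool.Agent.SymDiam.EX

/-- the ball of radius `r` is transitive on `t`-tuples of distinct points -/
def Tr {n : ℕ} (A : Set (Perm (Fin n))) (t r : ℕ) : Prop :=
  ∀ e e' : Fin t ↪ Fin n, ∃ g, InBall A r g ∧ Maps e e' g

open Classical in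
/-- the number of points in the class of `q` under the elements of the ball of radius `l` that fix
`T` pointwise -/
noncomputable def cls {n : ℕ} (A : Set (Perm (Fin n))) (l : ℕ) (T : Finset (Fin n)) (q : Fin n) : ℕ :=
  (univ.filter fun b => (gr A l T).Reachable q b).card

/-- there is only one class outside `T` -/
def Total {n : ℕ} (A : Set (Perm (Fin n))) (l : ℕ) (T : Finset (Fin n)) : Prop :=
  ∀ a, a ∉ T → ∀ b, b ∉ T → (gr A l T).Reachable a b

/-- the ranges of `e` and `ι` are complementary -/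
def Comp {n t k : ℕ} (e : Fin t ↪ Fin n) (ι : Fin k ↪ Fin n) : Prop :=
  ∀ x, (∃ y, ι y = x) ↔ ∀ i, e i ≠ x

/-- permutations of `k` points act on `n` points through the embedding `ι` -/
noncomputable def ext {n k : ℕ} (ι : Fin k ↪ Fin n) : Perm (Fin k) →* Perm (Fin n) :=
  Perm.viaEmbeddingHom ι

theorem ext_img {n k : ℕ} (ι : Fin k ↪ Fin n) (g : Perm (Fin k)) (x : Fin k) :
    ext ι g (ι x) = ι (g x) := Perm.viaEmbedding_apply g ι x

theorem ext_out {n k : ℕ} (ι : Fin k ↪ Fin n) (g : Perm (Fin k)) (x : Fin n)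
    (hx : ∀ y, ι y ≠ x) : ext ι g x = x := by
  refine Perm.viaEmbedding_apply_of_notMem g ι x ?_
  rintro ⟨y, hy⟩
  exact hx y hy

theorem ext_fix {n t k : ℕ} {e : Fin t ↪ Fin n} {ι : Fin k ↪ Fin n} (h : Comp e ι)
    (g : Perm (Fin k)) (i : Fin t) : ext ι g (e i) = e i :=
  ext_out ι g (e i) fun y hy => (h (e i)).1 ⟨y, hy⟩ i rfl

theorem exists_comp {n t : ℕ} (e : Fin t ↪ Fin n) : ∃ ι : Fin (n - t) ↪ Fin n, Comp e ι := by
  classical
  have h1 : Fintype.card {x : Fin n // ∀ i, e i ≠ x} = n - t := by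
    have h2 : (univ.filter fun x : Fin n => ∀ i, e i ≠ x) = (univ.map e)ᶜ := by
      ext x
      simp
    rw [Fintype.card_subtype, h2, card_compl, card_map, Fintype.card_fin, card_univ,
      Fintype.card_fin]
  let φ := (finCongr h1.symm).trans (Fintype.equivFin {x : Fin n // ∀ i, e i ≠ x}).symm
  refine ⟨φ.toEmbedding.trans (Function.Embedding.subtype _), fun x => ?_⟩
  constructor
  · rintro ⟨y, rfl⟩
    exact (φ y).2
  · intro hx
    exact ⟨φ.symm ⟨x, hx⟩, by simp⟩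

theorem cls_pos {n : ℕ} (A : Set (Perm (Fin n))) (l : ℕ) (T : Finset (Fin n)) (q : Fin n) :
    1 ≤ cls A l T q := by
  classical
  unfold cls
  exact card_pos.2 ⟨q, by simp⟩

theorem gr_mono {n : ℕ} {A : Set (Perm (Fin n))} {l l' : ℕ} (hl : l ≤ l') {T T' : Finset (Fin n)}
    (hT : T' ⊆ T) {a b : Fin n} (h : (gr A l T).Reachable a b) : (gr A l' T').Reachable a b := by
  refine SimpleGraph.Reachable.mono ?_ h
  rintro x y ⟨hne, z, h1, h2, h3⟩
  exact ⟨hne, z, h1.mono hl, fun p hp => h2 p (hT hp), h3⟩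

theorem cls_mono {n : ℕ} (A : Set (Perm (Fin n))) {l l' : ℕ} (hl : l ≤ l') {T T' : Finset (Fin n)}
    (hT : T' ⊆ T) (q : Fin n) : cls A l T q ≤ cls A l' T' q := by
  classical
  unfold cls
  refine card_le_card fun b hb => ?_
  rw [mem_filter] at hb ⊢
  exact ⟨mem_univ _, gr_mono hl hT hb.2⟩

theorem Tr.mono {n : ℕ} {A : Set (Perm (Fin n))} {t r r' : ℕ} (h : Tr A t r) (hr : r ≤ r') :
    Tr A t r' := by
  intro e e'
  obtain ⟨g, h1, h2⟩ := h e e'
  exact ⟨g, h1.mono hr, h2⟩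

/-! ### Part 1: stabilisers -/

/-- SCH (Schreier's lemma).  Choose `u e' ∈ Ball(r)` with `u e' ∘ e = e'` for all tuples `e'`, and
`u e = 1`.  Let `K` be the subgroup on the right.  For `x ∈ closure A` and all `e'` the element
`(u (x ∘ e'))⁻¹ * x * u e'` is in `K` (closure induction on `x`); take `e' = e`. -/
def SchStatement : Prop := ∀ (n t r : ℕ) (A : Set (Perm (Fin n))), Tr A t r →
  ∀ (e : Fin t ↪ Fin n) (g : Perm (Fin n)), g ∈ Subgroup.closure A → Maps e e g →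
    g ∈ Subgroup.closure {x | InBall A (2 * r + 1) x ∧ Maps e e x}

/-- SUC.  For points `a ≠ b` outside the range `T` of `e` there is a three-cycle (in `Alt(n)`, so in
`closure A`) that fixes `T` pointwise and maps `a` to `b` (third point outside `T`, `t + 3 ≤ n`); by
SCH it is a product of elements of `Ball(2 r + 1)` that fix `T`; so `a`, `b` are in one class of
`gr A (2 r + 1) T`, and `gr_reach` gives an element of `Ball (n (2 r + 1))` fixing `T` and mapping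
`a` to `b`.  Given tuples `e, e'` of length `t + 1`: first move the first `t` points, then the last
one. -/
def SucStatement : Prop := ∀ (n t r : ℕ) (A : Set (Perm (Fin n))),
  alternatingGroup (Fin n) ≤ Subgroup.closure A → t + 3 ≤ n → Tr A t r →
    Tr A (t + 1) (r + n * (2 * r + 1))

/-- LOC.  Let `A' = {a | InBall A (2 r + 1) (ext ι a)}`, a set of permutations of `n - t` points.  By
SCH `Alt(n - t) ≤ closure A'` (`ext ι` preserves the sign, `Perm.sign_extendDomain`, is injective,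
and every permutation that fixes the range of `e` is in its range).  Then
`H96.mixQ H98.gens (H28.walk (H28.gap H28.poin)) H98.trans 4 (n - t)` (see the end of
`LB/EX/Main.lean` for the imports) gives `W`, and `InBall A' s h` implies
`InBall A (s * (2 * r + 1)) (ext ι h)`. -/
def LocStatement : Prop := ∀ (n t r : ℕ) (A : Set (Perm (Fin n))),
  alternatingGroup (Fin n) ≤ Subgroup.closure A → 10 * t ≤ n → 100 ≤ n → Tr A t r →
  ∀ (e : Fin t ↪ Fin n) (ι : Fin (n - t) ↪ Fin n), Comp e ι →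
    (∃ W : Perm (Fin (n - t)) → ℝ, Mixing (n - t) 4 W ∧
      ∀ h, W h ≠ 0 → InBall A (n ^ 17 * (2 * r + 1)) (ext ι h)) ∧
    ∃ w : Perm (Fin (n - t)), w ≠ 1 ∧ InBall A (2 * r + 1) (ext ι w)

/-- CON (conjugation trick).  For `σ : Perm (Fin t)` let `g σ ∈ Ball(r)` with
`g σ (e i) = e (σ i)`; it preserves the range of `e`, so also the range of `ι`, and gives
`g' σ : Perm (Fin (n - t))` with `g σ (ι x) = ι (g' σ x)`.  Let `X` be the set of all `x` with
`InBall A (2 r + l + 2 R) (ext ι x)`.  The elements `cj (cj w (hs i)) (g' σ)` are in `X`, because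
`ext ι` of it is `(g σ)⁻¹ * ext ι (cj w (hs i)) * g σ`.  If the map
`σ ↦ (fun i => cj (cj w (hs i)) (g' σ), (g' σ)⁻¹ x0)` to `(Fin m → X) × Fin (n - t)` is injective then
`t! ≤ |X| ^ m * n`.  Otherwise it has the same value at `σ ≠ τ`, and `z = g τ * (g σ)⁻¹` is in
`Ball(2 r)`, not `1`, and `g' τ * (g' σ)⁻¹` commutes with all `cj w (hs i)` and fixes `x0`; so
`|supp z| ≤ t + (n - t) / 10 ≤ n / 5`. -/
def ConStatement : Prop := ∀ (n t r R l m : ℕ) (A : Set (Perm (Fin n))), 10 * t ≤ n → Tr A t r →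
  ∀ (e : Fin t ↪ Fin n) (ι : Fin (n - t) ↪ Fin n), Comp e ι →
  ∀ (hs : Fin m → Perm (Fin (n - t))) (x0 : Fin (n - t)) (w : Perm (Fin (n - t))),
    InBall A l (ext ι w) → (∀ i, InBall A R (ext ι (hs i))) →
    (∀ g : Perm (Fin (n - t)), g x0 = x0 → (∀ i, g * cj w (hs i) = cj w (hs i) * g) →
      10 * g.support.card ≤ n - t) →
    (∃ z : Perm (Fin n), z ≠ 1 ∧ InBall A (2 * r) z ∧ 5 * z.support.card ≤ n) ∨
    ∃ X : Finset (Perm (Fin (n - t))), (∀ x ∈ X, InBall A (2 * r + l + 2 * R) (ext ι x)) ∧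
      t.factorial ≤ X.card ^ m * n

/-- KIL.  Suppose `cls ≤ d` for all `q ∉ T`.  Put `n' = n - t`, `Sg = {x | ι x ∈ T}` (at most `s`
points).  The number of pairs `a ≠ b` of `Fin n'` with `Reachable (ι a) (ι b)` is at most
`n' (d - 1)` (points of `T` are alone in their class).  So by `Mixing.upper` for pairs, for
`r ≠ r'` the weight of the `h` with `Reachable (ι (h⁻¹ r)) (ι (h⁻¹ r'))` is at most
`(1 + 1 / n') * d / n'`.  Apply `EX.kill` with `T := ∅`, `Sg`, `K h r r' := ¬ Reachable ..`,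
`F h = if K then W h else 0`, `ρ = 1 - (1 + 1 / n') * d / n'`: it gives `x y ∈ X`, `h`, `r` such that
`cj (x⁻¹ * y) h` fixes `Sg` and maps `h⁻¹ r` to `h⁻¹ ((x⁻¹ * y) r)`, a contradiction
(compare `EX.split_one`). -/
def KilStatement : Prop := ∀ (n t R L k s : ℕ) (A : Set (Perm (Fin n))) (e : Fin t ↪ Fin n)
  (ι : Fin (n - t) ↪ Fin n), Comp e ι → 2 ≤ n - t →
  ∀ W : Perm (Fin (n - t)) → ℝ, Mixing (n - t) 2 W → (∀ h, W h ≠ 0 → InBall A R (ext ι h)) →
  ∀ X : Finset (Perm (Fin (n - t))), (∀ x ∈ X, InBall A L (ext ι x)) →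
  (n - t) ^ (k * s) < X.card → ∀ d : ℝ, 0 ≤ d →
  ((1 + 1 / ((n - t : ℕ) : ℝ)) * d / ((n - t : ℕ) : ℝ)) ^ k * ((n - t : ℕ) : ℝ) ^ 2 < 1 →
  ∀ T : Finset (Fin n), (∀ i, e i ∈ T) → T.card ≤ t + s →
    ∃ q, q ∉ T ∧ d < (cls A (2 * L + 2 * R) T q : ℝ)

/-! ### Part 2: few conjugates of `w` with a small centraliser -/

/-- every permutation that commutes with the conjugates of `w` by the elements of `H` fixes `a` if
and only if it fixes `b`; an equivalence relation; `Lk w H x (cj w h x)` for `h ∈ H` -/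
def Lk {n : ℕ} (w : Perm (Fin n)) (H : Finset (Perm (Fin n))) (a b : Fin n) : Prop :=
  ∀ g : Perm (Fin n), (∀ h ∈ H, g * cj w h = cj w h * g) → (g a = a ↔ g b = b)

theorem lk_refl {n : ℕ} (w : Perm (Fin n)) (H : Finset (Perm (Fin n))) (a : Fin n) :
    Lk w H a a := fun _ _ => Iff.rfl

theorem lk_symm {n : ℕ} {w : Perm (Fin n)} {H : Finset (Perm (Fin n))} {a b : Fin n}
    (h : Lk w H a b) : Lk w H b a := fun g hg => (h g hg).symm

theorem lk_trans {n : ℕ} {w : Perm (Fin n)} {H : Finset (Perm (Fin n))} {a b c : Fin n}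
    (h : Lk w H a b) (h' : Lk w H b c) : Lk w H a c := fun g hg => (h g hg).trans (h' g hg)

theorem lk_mono {n : ℕ} {w : Perm (Fin n)} {H H' : Finset (Perm (Fin n))} (hH : H ⊆ H')
    {a b : Fin n} (h : Lk w H a b) : Lk w H' a b := fun g hg => h g fun x hx => hg x (hH hx)

theorem lk_step {n : ℕ} {w : Perm (Fin n)} {H : Finset (Perm (Fin n))} {h : Perm (Fin n)}
    (hh : h ∈ H) (x : Fin n) : Lk w H x (cj w h x) := by
  intro g hg
  have h1 := congrArg (fun p : Perm (Fin n) => p x) (hg h hh)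
  simp only [Perm.mul_apply] at h1
  constructor
  · intro h2
    rw [h1, h2]
  · intro h2
    rw [h2] at h1
    exact ((cj w h).injective h1).symm

/-- a family of disjoint blocks of size `b`, each inside one class -/
structure Fam {n : ℕ} (w : Perm (Fin n)) (H : Finset (Perm (Fin n))) (b : ℕ)
    (Bs : Finset (Finset (Fin n))) : Prop where
  card : ∀ B ∈ Bs, B.card = b
  disj : ∀ B ∈ Bs, ∀ B' ∈ Bs, B ≠ B' → Disjoint B B'
  lk : ∀ B ∈ Bs, ∀ x ∈ B, ∀ y ∈ B, Lk w H x y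

open Classical in
/-- the number of other blocks hit by the image of `B` -/
noncomputable def hit {n : ℕ} (Bs : Finset (Finset (Fin n))) (v : Perm (Fin n))
    (B : Finset (Fin n)) : ℕ :=
  (Bs.filter fun B' => B' ≠ B ∧ ∃ x ∈ B, v x ∈ B').card

/-- MOM (second moment).  Fix `B ∈ Bs`, let `U` be the union of the other blocks, `u0 = |U|`,
`s = |supp w|`, `v = cj w h`.  `X = #{x ∈ B | v x ∈ U}` and
`Y = #{(x, x') ∈ B × B, x ≠ x', v x and v x' in the same block of Bs, not B}`.  Then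
`X ≤ hit + Y` (sum over the hit blocks `B'` of `c ≤ 1 + c (c - 1)`, `c = #{x ∈ B | v x ∈ B'}`).
`∑ h, W h X ≥ a := b u0 s / n ^ 2` and `≤ 2 a`; for `x ≠ x'` in `B`, `z ≠ z'` outside `B` the weight of
`v x = z, v x' = z'` is at most `s ^ 2 (1 + 1 / n) / (n)_4` (sum over `h x = p, h x' = p'`,
`h z = w p, h z' = w p'`, `Mixing.upper` for quadruples, `quad` in `EX/Blk.lean`; a lower bound for one
point is `LB.move`).  So `∑ h, W h (X - a) ^ 2 ≤ 2 a + 8 a ^ 2 / n`, the weight of `X < a / 2` is at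
most `8 / a + 32 / n`, where `a ≥ b / 50`; and `∑ h, W h Y ≤ 2 b ^ 3 / n`, the weight of
`200 Y ≥ b` is at most `400 b ^ 2 / n`.  If `X ≥ b / 100` and `200 Y < b` then `b < 200 hit`.
Finally average over `h` the number of bad blocks (`LB.avg` for the negative). -/
def MomStatement : Prop := ∀ n ≥ 10000, ∀ W : Perm (Fin n) → ℝ, Mixing n 4 W →
  ∀ w : Perm (Fin n), n ≤ 5 * w.support.card → ∀ (Bs : Finset (Finset (Fin n))) (b : ℕ), 1 ≤ b →
  (∀ B ∈ Bs, B.card = b) → (∀ B ∈ Bs, ∀ B' ∈ Bs, B ≠ B' → Disjoint B B') →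
  n ≤ 8 * (b * Bs.card) → b ^ 2 ≤ n →
    ∃ h, W h ≠ 0 ∧ ((Bs.filter fun B => 200 * hit Bs (cj w h) B < b).card : ℝ) ≤
      (400 / (b : ℝ) + 500 * (b : ℝ) ^ 2 / (n : ℝ)) * (Bs.card : ℝ)

/-- REG (regrouping).  Take a family `Q` of pairwise disjoint `q`-subsets of `s`, each inside one
class, of maximal cardinality.  In every class fewer than `q` elements of `s` are outside the union
of `Q`.  Let `L` be the set of the elements `x ∈ s` outside the union with at least `D` equivalent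
elements in `s`: `D |L| ≤ #{(x, y) | x ∈ L, y ∈ s, r x y} ≤ q |s|`. -/
def RegStatement : Prop := ∀ (α : Type) (_ : DecidableEq α) (s : Finset α) (r : α → α → Prop)
  (_ : DecidableRel r), Equivalence r → ∀ q D : ℕ, 1 ≤ q →
    ∃ Q : Finset (Finset α), (∀ B ∈ Q, B ⊆ s ∧ B.card = q ∧ ∀ x ∈ B, ∀ y ∈ B, r x y) ∧
      (∀ B ∈ Q, ∀ B' ∈ Q, B ≠ B' → Disjoint B B') ∧
      D * (s.filter fun x => D ≤ (s.filter fun y => r x y).card).card ≤
        D * (q * Q.card) + q * s.card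

/-- BEG (start).  Let `T0` be a set of `n / 2 ^ (e + 4) + 1` points.  `EX.lsteps` (in
`LB/EX/Cls.lean`) with `T0`, `lam = 2 ^ (e + 4)` and a constant number `k` of steps,
`(6 / 5) ^ k ≥ 2 ^ (e + 8)`, gives conjugators and a set `S`, `|Sᶜ| ≤ n / 16`, all points of which are
linked to points of `T0`.  So `S` is covered by at most `|T0|` classes of `Lk`, at most
`|T0| 2 ^ (e + 1) ≤ n / 8 + 2 ^ (e + 1)` points of `S` are in classes of size less than `2 ^ (e + 1)`,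
and REG with `s = univ`, `q = 2 ^ e`, `D = 2 ^ (e + 1)` gives blocks that cover at least
`n (1 - 1 / 16 - 1 / 8) - 2 ^ (e + 1) - n / 2 ≥ n / 4` points. -/
def BegStatement : Prop := ∀ e : ℕ, ∃ k n0 : ℕ, ∀ n ≥ n0, ∀ W : Perm (Fin n) → ℝ, Mixing n 4 W →
  ∀ w : Perm (Fin n), n ≤ 5 * w.support.card →
    ∃ (H : Finset (Perm (Fin n))) (Bs : Finset (Finset (Fin n))), H.card ≤ k ∧
      (∀ h ∈ H, W h ≠ 0) ∧ Fam w H (2 ^ e) Bs ∧ n ≤ 4 * (2 ^ e * Bs.card)

/-- END (from a class of linear size).  `LB.steps` (or `EX.lsteps`) with `T = B`, `lam = K`, and a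
constant number of steps: all but `n / 10` points are linked to points of `B`. -/
def EndStatement : Prop := ∀ K : ℕ, ∃ k n0 : ℕ, ∀ n ≥ n0, ∀ W : Perm (Fin n) → ℝ, Mixing n 4 W →
  ∀ w : Perm (Fin n), n ≤ 5 * w.support.card → ∀ (H : Finset (Perm (Fin n))) (B : Finset (Fin n)),
  (∀ h ∈ H, W h ≠ 0) → n ≤ K * B.card → (∀ x ∈ B, ∀ y ∈ B, Lk w H x y) →
    ∃ (H' : Finset (Perm (Fin n))) (x0 : Fin n), H'.card ≤ H.card + k ∧ (∀ h ∈ H', W h ≠ 0) ∧
      ∀ g : Perm (Fin n), g x0 = x0 → (∀ h ∈ H', g * cj w h = cj w h * g) →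
        10 * g.support.card ≤ n

/-- QST (one squaring step).  MOM gives `h`; let `H' = insert h H`.  Two blocks `B`, `B'` are
equivalent if `Lk w H' x y` for all `x ∈ B`, `y ∈ B'`.  If `v = cj w h` maps a point of `B` to a point
of `B'` then they are equivalent.  So a block that is not bad is equivalent to more than
`b / 200 ≥ 2 ^ (a - 8) = D` other blocks, `b = 2 ^ a`.  REG with `s = Bs`, `q = 2 ^ c`, and the new
blocks are the unions `Q.biUnion id`. -/
def QstStatement : Prop := ∀ n ≥ 10000, ∀ W : Perm (Fin n) → ℝ, Mixing n 4 W →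
  ∀ w : Perm (Fin n), n ≤ 5 * w.support.card →
  ∀ (H : Finset (Perm (Fin n))) (Bs : Finset (Finset (Fin n))) (a c : ℕ), 8 ≤ a → 4 ^ a ≤ n →
  (∀ h ∈ H, W h ≠ 0) → Fam w H (2 ^ a) Bs → n ≤ 8 * (2 ^ a * Bs.card) →
    ∃ (H' : Finset (Perm (Fin n))) (Bs' : Finset (Finset (Fin n))), H'.card ≤ H.card + 1 ∧
      (∀ h ∈ H', W h ≠ 0) ∧ Fam w H' (2 ^ (a + c)) Bs' ∧
      (2 ^ a * Bs.card : ℝ) * (1 - 400 / 2 ^ a - 500 * 4 ^ a / (n : ℝ) - 2 ^ c / 2 ^ (a - 8)) ≤
        (2 ^ (a + c) * Bs'.card : ℝ)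

/-- LEB (Lemma B: `O(log log n)` conjugates suffice).  Start with BEG for a large constant `e`
(`2 ^ e` blocks, covering at least `n / 4` points).  Let `E` be maximal with `4 ^ E ≤ n / K`, `K` a
large constant.  While `a < E`: QST with `c = min ((a - 8) / 2) (E - a)`, as long as `c ≥ 1`; the
covered part stays at least `n / 8`, since the losses are at most
`400 / 2 ^ a + 500 4 ^ a / n + 2 ^ (-(a - 8) / 2)` times `n` and `a` increases; the number of steps is
`O(log E) = O(log log n)` since `a - 8` grows by the factor at least `5 / 4`.  Finally `a = E`: by MOM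
(or QST with `c` such that `2 ^ c` is a small constant times `2 ^ a`) there is a class of at least
`2 ^ a 2 ^ (a - 9)` points, a constant times `n`; END.  The indexed family `hs` lists `H'`, with
repetitions (`m ≥ |H'|`). -/
def LebStatement : Prop := ∃ C n0 : ℕ, 1 ≤ C ∧ ∀ n ≥ n0, ∀ W : Perm (Fin n) → ℝ, Mixing n 4 W →
  ∀ w : Perm (Fin n), n ≤ 5 * w.support.card → ∀ m, C * (Nat.log 2 (Nat.log 2 n) + 1) ≤ m →
    ∃ (hs : Fin m → Perm (Fin n)) (x0 : Fin n), (∀ i, W (hs i) ≠ 0) ∧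
      ∀ g : Perm (Fin n), g x0 = x0 → (∀ i, g * cj w (hs i) = cj w (hs i) * g) →
        10 * g.support.card ≤ n

/-! ### Part 3: no small class after fixing few further points -/

/-- the number of conjugators in KIL for the scale `y` -/
def kk (n y : ℕ) : ℕ := 3 * (Nat.log 2 n + 1) / y + 1

/-- BIG (from LOC, LEB, CON, KIL).  If there is no `z` as in the first alternative: let `T` be given
and `e` a `t`-tuple in `T`, `ι` with `Comp e ι` (`exists_comp`).  LOC gives `W` and `w`.  If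
`5 |supp w| ≤ n - t` then `ext ι w` is short of small support.  Otherwise LEB for `n - t` with
`m = C (log log n + 1)`, and CON with `l = 2 r + 1`, `R = n ^ 17 (2 r + 1)` give `X` with
`t! ≤ |X| ^ m n`, so `n ^ (kk n y * s) < |X|`, and KIL with `d = n / 2 ^ y` applies:
`(1 + 1 / n') d / n' ≤ 1.13 / 2 ^ y ≤ 2 ^ (- 3 y / 4)` and `y * kk n y > 3 (log n + 1)`. -/
def BigStatement : Prop := ∃ C n0 : ℕ, 1 ≤ C ∧ ∀ n ≥ n0, ∀ A : Set (Perm (Fin n)),
  alternatingGroup (Fin n) ≤ Subgroup.closure A → ∀ t r : ℕ, 1 ≤ r → 10 * t ≤ n → Tr A t r →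
    (∃ z : Perm (Fin n), z ≠ 1 ∧ InBall A (n ^ 18 * r) z ∧ 5 * z.support.card ≤ n) ∨
    ∀ y s : ℕ, 1 ≤ y → y ≤ Nat.log 2 n →
      n ^ (C * (Nat.log 2 (Nat.log 2 n) + 1) * kk n y * s + 1) < t.factorial →
      ∀ T : Finset (Fin n), t ≤ T.card → T.card ≤ t + s →
        ∃ q, q ∉ T ∧ n < 2 ^ y * cls A (n ^ 18 * r) T q

/-! ### Part 4: a spectral argument on the subsets of a set -/

/-- averaging over the sets with one more point -/
noncomputable def Dn {n : ℕ} (E : Finset (Fin n)) (f : Finset (Fin n) → ℝ) (S : Finset (Fin n)) :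
    ℝ := (∑ x ∈ E \ S, f (insert x S)) / ((E \ S).card : ℝ)

/-- averaging over the sets with one point less -/
noncomputable def Up {n : ℕ} (f : Finset (Fin n) → ℝ) (S : Finset (Fin n)) : ℝ :=
  (∑ x ∈ S, f (S.erase x)) / (S.card : ℝ)

/-- the mean over the subsets of `E` of size `a` -/
noncomputable def Ex {n : ℕ} (E : Finset (Fin n)) (a : ℕ) (f : Finset (Fin n) → ℝ) : ℝ :=
  (∑ S ∈ powersetCard a E, f S) / ((E.card.choose a : ℕ) : ℝ)

/-- SPA (adjointness): double counting of the pairs `(S, insert x S)`, and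
`choose N a * (N - a) = choose N (a + 1) * (a + 1)`. -/
def SpaStatement : Prop := ∀ (n : ℕ) (E : Finset (Fin n)) (a : ℕ) (f h : Finset (Fin n) → ℝ),
  a < E.card → Ex E a (fun S => Dn E f S * h S) = Ex E (a + 1) (fun S => f S * Up h S)

/-- SPB (commutation), an identity at every set. -/
def SpbStatement : Prop := ∀ (n : ℕ) (E : Finset (Fin n)) (f : Finset (Fin n) → ℝ)
  (S : Finset (Fin n)), S ⊆ E → S.card < E.card →
    ((E.card : ℝ) - S.card) * ((S.card : ℝ) + 1) * Dn E (Up f) S =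
      (S.card : ℝ) * ((E.card : ℝ) - S.card + 1) * Up (Dn E f) S +
        ((E.card : ℝ) - 2 * S.card) * f S

/-- SPC.  With `N = |E|`, `g = Dn E f` (on the sets of size `a - 1`) and `SPA`, `SPB`:
`(E g²)² = (E f Up g)² ≤ E f² E (Up g)²`, `E (Up g)² = E g Dn (Up g)` (SPA), and by SPB
`a (N - a + 1) E g Dn (Up g) = (a - 1) (N - a + 2) E g Up (Dn g) + (N - 2 a + 2) E g²`,
`E g Up (Dn g) = E (Dn g)²` by SPA.  The second statement is Jensen (or Cauchy and SPA). -/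
def SpcStatement : Prop := ∀ (n : ℕ) (E : Finset (Fin n)) (a : ℕ) (f : Finset (Fin n) → ℝ),
  2 ≤ a → 2 * a ≤ E.card →
    (a : ℝ) * ((E.card : ℝ) - a + 1) * Ex E (a - 1) (fun S => Dn E f S ^ 2) ^ 2 ≤
      Ex E a (fun S => f S ^ 2) *
        (((a : ℝ) - 1) * ((E.card : ℝ) - a + 2) * Ex E (a - 2) (fun S => Dn E (Dn E f) S ^ 2) +
          ((E.card : ℝ) - 2 * a + 2) * Ex E (a - 1) (fun S => Dn E f S ^ 2)) ∧
    Ex E (a - 1) (fun S => Dn E f S ^ 2) ≤ Ex E a (fun S => f S ^ 2)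

/-- SPP (positivity).  Induction on `j`, for all `f`: for `j = 0` the value is
an average of averages of `f` on sets of size `a`.  Step: on the sets of size `a + j` (SPB)
`Dn (Up f) = α Up (Dn f) + (1 - α) f` with `0 ≤ α ≤ 1` (as `2 (a + j) ≤ |E|`), so
`Dn^[j + 1] (Up f) = α Dn^[j] (Up (Dn f)) + (1 - α) Dn^[j] f`, where both parts are nonnegative on
the sets of size `a` (induction hypothesis for `Dn f`). -/
def SppStatement : Prop := ∀ (n : ℕ) (E : Finset (Fin n)) (a j : ℕ), 2 * (a + j + 1) ≤ E.card →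
  ∀ f : Finset (Fin n) → ℝ, (∀ S ⊆ E, S.card = a → 0 ≤ (Dn E)^[j] f S) →
    ∀ S ⊆ E, S.card = a → 0 ≤ (Dn E)^[j + 1] (Up f) S

/-- SPD (real numbers).  Let `x a = V (a - 1) / V a`, so `V (a - 1) = x a * V a` always and
`0 ≤ x a ≤ 1`.  From the third hypothesis, for `t + 1 ≤ a ≤ k = t + v + J`:
`a (N - a + 1) (1 - x a) ≥ (a - 1) (N - a + 2) (1 - x (a - 1))` (also if `V a = 0` or
`V (a - 1) = 0`), so `1 - x a ≥ (b / a) (1 - x b)` for `t ≤ b ≤ a ≤ k`.  Let `P` be the product of the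
`x a`, `t + v < a ≤ k`, so `V (t + v) = P V k` and `V k ≤ b P`.  Suppose `V k > τ b²`.  Then
`P > τ b ≥ τ β`.  Let `X` be the minimum of the `x a`, `t ≤ a ≤ t + v`.  Then
`V (t - 1) ≥ X ^ (v + 1) P V k`, so `X ^ (v + 1) ≤ η² / (τ² β)`.  Put `δ = (v + J) / t ≤ 1 / 4`.  For
`a > t + v`: `x a ≤ X + δ` and `x a ≤ 1 - (1 - δ) (1 - X)`.  If `X ≤ δ` then
`P ≤ (2 δ) ^ J ≤ 2 ^ (-J) ≤ τ β`, contradiction.  If `X > δ` then `x a ^ 3 ≤ X`
(for `X ≤ 1 / 4` from `x a ≤ 2 X`, for `X ≥ 1 / 4` from `x a ≤ (1 + X) / 2` and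
`(1 + X) ^ 3 ≤ 8 X`), so `P ^ 3 ≤ X ^ J ≤ X ^ (v + 1) ≤ η² / (τ² β) ≤ τ³ β³`, contradiction. -/
def SpdStatement : Prop := ∀ (N t v J : ℕ) (V : ℕ → ℝ) (η β τ b : ℝ), 1 ≤ t → v + 1 ≤ J →
  4 * (v + J) ≤ t → 2 * (t + v + J) ≤ N → (∀ a, 0 ≤ V a) →
  (∀ a, t ≤ a → a ≤ t + v + J → V (a - 1) ≤ V a) →
  (∀ a, t + 1 ≤ a → a ≤ t + v + J → (a : ℝ) * ((N : ℝ) - a + 1) * V (a - 1) ^ 2 ≤
    V a * (((a : ℝ) - 1) * ((N : ℝ) - a + 2) * V (a - 2) + ((N : ℝ) - 2 * a + 2) * V (a - 1))) →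
  0 < β → β ≤ b → 0 < τ → τ ≤ 1 → V (t + v + J) ^ 2 ≤ b * V (t + v) →
  V (t - 1) ≤ η ^ 2 * b ^ 2 → 1 ≤ τ * β * 2 ^ J → η ^ 2 ≤ τ ^ 5 * β ^ 4 →
    V (t + v + J) ≤ τ * b ^ 2

/-- SPE.  `k = t + v + J`, `m0 = t + v`, `N = |E|`.  Let `f1 T = 1` if `T ∈ Gs`, else `0`, `b = Ex E m0 f1`,
`f0 = f1 - b`, `F = Up^[J] f0`, `V a = Ex E a ((Dn E)^[k - a] F ^ 2)`.  (`Up^[J]` and `Dn^[..]` of a
constant is this constant, on sets of the right sizes.)  For `|S| = t - 1`:
`(Dn E)^[v + 1] f1 S = (number of T ∈ Gs with S ⊆ T) / choose (N - (t - 1)) (v + 1)`, so it is in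
`[κ, (1 + η) κ]` with `κ = m / choose .. ≥ β`, and so is its mean `b`.  By SPP (applied `J` times, to
`f1 - κ` and to `(1 + η) κ - f1`) `|(Dn E)^[k - (t - 1)] F S| ≤ η κ ≤ η b` for `|S| = t - 1`, so
`V (t - 1) ≤ η² b²`.  By SPA `V k = Ex (F * Up^[J] f0) = Ex E m0 (f0 * Dn^[J] F)`, so
`V k ^ 2 ≤ Ex E m0 (f0 ^ 2) * V m0 ≤ b V m0`.  SPC gives the other hypotheses of SPD.  A set `P`
counted on the left has `Up^[J] f1 P = 0`, so `F P = - b`; so the left side times `b ^ 2` is at most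
`choose N k * V k ≤ choose N k * τ b ^ 2`. -/
def SpeStatement : Prop := ∀ (n : ℕ) (E : Finset (Fin n)) (t v J : ℕ)
  (Gs : Finset (Finset (Fin n))) (m η β τ : ℝ), 1 ≤ t → v + 1 ≤ J → 4 * (v + J) ≤ t →
  2 * (t + v + J) ≤ E.card → (∀ T ∈ Gs, T ⊆ E ∧ T.card = t + v) → 0 < β → 0 < τ → τ ≤ 1 → 0 ≤ η →
  (∀ S ⊆ E, S.card = t - 1 → m ≤ ((Gs.filter fun T => S ⊆ T).card : ℝ) ∧
    ((Gs.filter fun T => S ⊆ T).card : ℝ) ≤ (1 + η) * m) →
  β * (((E.card - (t - 1)).choose (v + 1) : ℕ) : ℝ) ≤ m → 1 ≤ τ * β * 2 ^ J →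
  η ^ 2 ≤ τ ^ 5 * β ^ 4 →
    (((powersetCard (t + v + J) E).filter fun P => ∀ T ∈ Gs, ¬ T ⊆ P).card : ℝ) ≤
      τ * ((E.card.choose (t + v + J) : ℕ) : ℝ)

/-! ### Part 5: explosion -/

/-- CHA (chain of good sets).  Count permutations `σ` of `Fin n`; put
`T j σ = σ '' {i | i < j}`.  For a set `T` of size `j` the number of `σ` with `T j σ = T` does not
depend on `T`, so it is `n! / choose n j`.  Hence fewer than `n! / u` permutations have `T j σ` bad,
for each of the `u` values of `j`, so some `σ` is good for all `j`; `x i = σ i`. -/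
def ChaStatement : Prop := ∀ (n t u : ℕ), t + u ≤ n → 1 ≤ u → ∀ (Bad : Finset (Fin n) → Prop)
  (_ : DecidablePred Bad),
  (∀ j, t ≤ j → j < t + u →
    u * ((powersetCard j (univ : Finset (Fin n))).filter fun T => Bad T).card < n.choose j) →
    ∃ x : Fin (t + u) ↪ Fin n, ∀ j, t ≤ j → j < t + u →
      ¬ Bad ((univ.filter fun i : Fin (t + u) => i.val < j).image x)

/-- TUP.  Every tuple `e` of length `t + u` is moved to `x` by an element of
`Ball (r + u (n ρ))`: the first `t` points by `Tr A t r`; then one point after the other: if the first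
`j ≥ t` points are in place, the image of the next one is outside `T j = {x i | i < j}`, so `gr_reach`
gives an element of `Ball (n ρ)` that fixes `T j` pointwise and maps it to `x j`. -/
def TupStatement : Prop := ∀ (n t u r ρ : ℕ) (A : Set (Perm (Fin n))), Tr A t r →
  ∀ x : Fin (t + u) ↪ Fin n,
    (∀ j, t ≤ j → j < t + u → Total A ρ ((univ.filter fun i : Fin (t + u) => i.val < j).image x)) →
      Tr A (t + u) (2 * (r + u * (n * ρ)))

/-- SCA (scale of the smallest class).  Let `q ∉ T` be a point with the smallest `cls`, `c` this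
number.  There are two disjoint classes outside `T`, so `2 c ≤ n`.  Let `y = Nat.log 2 (n / c)`.  All
points of the class of `q` are counted on the right (the elements that fix `T` preserve the
complement of `T`), so the number on the right is at least `c > n / 2 ^ (y + 1)`. -/
def ScaStatement : Prop := ∀ (n ρ : ℕ) (A : Set (Perm (Fin n))) (T : Finset (Fin n)),
  ¬ Total A ρ T → ∃ y, 1 ≤ y ∧ y ≤ Nat.log 2 n ∧
    n < 2 ^ (y + 1) * (univ.filter fun q => q ∉ T ∧ 2 ^ y * cls A ρ T q ≤ n).card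

/-- the number of `m`-sets `T ⊇ S` such that the class of `q ∉ T` is small -/
noncomputable def cnt {n : ℕ} (A : Set (Perm (Fin n))) (ρ m y : ℕ) (S : Finset (Fin n))
    (q : Fin n) : ℕ :=
  ((powersetCard m (univ : Finset (Fin n))).filter fun T =>
    S ⊆ T ∧ q ∉ T ∧ 2 ^ y * cls A ρ T q ≤ n).card

/-- STA (stable radius).  Let `M ρ` be the maximum, `μ ρ` the minimum of `cnt A ρ m y S q` over
`|S| = t - 1`, `q ∉ S`.  If `g ∈ Ball(r)` maps `S` to `S'` and `q` to `q'` (`Tr A t r`) then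
`T ↦ g T` shows `cnt A (ρ + 2 r) m y S q ≤ cnt A ρ m y S' q'`: for `z ∈ Ball(ρ)` fixing `g T`, the
conjugate `g⁻¹ z g ∈ Ball(ρ + 2 r)` fixes `T`, so `cls A ρ (g T) (g q) ≤ cls A (ρ + 2 r) T q`.  So
`M (ρ + 2 r) ≤ μ ρ`.  If the conclusion fails for all `j ≤ I` then
`M (ρ) > (1 + η) ^ I M (ρ + 2 r I)` and `M (ρ + 2 r I) ≥ 1`; but `M ≤ 2 ^ n`. -/
def StaStatement : Prop := ∀ (n t r m y ρ I : ℕ) (A : Set (Perm (Fin n))) (η : ℝ), 0 < η →
  1 ≤ t → Tr A t r → (2 : ℝ) ^ n < (1 + η) ^ I →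
    ∃ j ≤ I, ∀ S S' : Finset (Fin n), S.card = t - 1 → S'.card = t - 1 →
      ∀ q, q ∉ S → ∀ q', q' ∉ S' →
        (cnt A (ρ + 2 * r * j) m y S q : ℝ) ≤ (1 + η) * (cnt A (ρ + 2 * r * j) m y S' q' : ℝ)

/-- ONE (from STA, SPE).  Suppose not.  STA with `m = t + v`, `η = 1 / n ^ 10` gives `j`; put
`ρ' = ρ + 2 r j`; since `cls` is monotone in the radius, the last hypothesis also holds with `ρ'` in
place of `ρ + 2 r I`.  Let `μ` be the minimum of the `cnt A ρ' (t + v) y S q`, `|S| = t - 1`, `q ∉ S`, so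
`μ ≤ cnt ≤ (1 + η) μ ≤ 2 μ`.  The sum in the last hypothesis is `∑ q, cnt ∅ q`, and
`cnt ∅ q * choose (t + v) (t - 1) = ∑ S, cnt S q ≤ choose (n - 1) (t - 1) * 2 μ`.  With
`choose (n - 1) (t + v) * choose (t + v) (t - 1) = choose (n - 1) (t - 1) * choose (n - t) (v + 1)` and
`choose n (t + v) ≥ choose (n - 1) (t + v)`: `choose (n - t) (v + 1) ≤ u log n 2 ^ (y + 2) μ`.  For every
`q` apply SPE to `E = univ.erase q`, `Gs = {T | q ∉ T, 2 ^ y cls A ρ' T q ≤ n}`, `m = μ`,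
`β = 1 / (u log n 2 ^ (y + 2))`, `τ = 1 / 2 ^ y`: at most `τ choose (n - 1) k` sets `P ∌ q` of size
`k = t + v + J` contain no `T ∈ Gs`; all other sets `P ∌ q` have
`2 ^ y cls A ρ' P q ≤ 2 ^ y cls A ρ' T q ≤ n`.  Sum over `q`
(`n choose (n - 1) k = (n - k) choose n k`): some `P` has at most `τ (n - k)` points `q ∉ P` with
`2 ^ y cls A ρ' P q > n`.  If there is one such point then all points of its class are such
points, more than `n / 2 ^ y` points, a contradiction.  So there is none, and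
`cls A ρ P q ≤ cls A ρ' P q`. -/
def OneStatement : Prop := ∀ (n t r v u J y ρ I : ℕ) (A : Set (Perm (Fin n))), 100 ≤ n → 1 ≤ t →
  v < u → u ≤ J → Tr A t r → (2 : ℝ) ^ n < (1 + 1 / (n : ℝ) ^ 10) ^ I → 4 * (t + u + J) ≤ n →
  4 * (u + J) ≤ t → 1 ≤ y → y ≤ Nat.log 2 n → u * Nat.log 2 n * 2 ^ (2 * y + 2) ≤ 2 ^ J →
  n.choose (t + v) * n ≤ u * Nat.log 2 n * 2 ^ (y + 1) *
    ∑ T ∈ powersetCard (t + v) (univ : Finset (Fin n)),
      (univ.filter fun q => q ∉ T ∧ 2 ^ y * cls A (ρ + 2 * r * I) T q ≤ n).card →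
    ∃ P : Finset (Fin n), P.card = t + v + J ∧ ∀ q, q ∉ P → 2 ^ y * cls A ρ P q ≤ n

/-- LEC (Lemma C, from ONE, SCA, CHA, TUP).  Put `ρ' = ρ + 2 r I`, `Bad T = ¬ Total A ρ' T`.  If CHA
applies, TUP gives the claim.  Otherwise for some `v < u` at least `choose n (t + v) / u` sets `T` of
size `t + v` are bad.  Each of them has a `y` as in SCA; some `y` serves at least
`choose n (t + v) / (u log n)` sets; so the last hypothesis of ONE holds, and the set `P` of ONE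
contradicts the last hypothesis below. -/
def LecStatement : Prop := ∀ (n t r u ρ I : ℕ) (A : Set (Perm (Fin n))) (J : ℕ → ℕ), 100 ≤ n →
  1 ≤ t → 1 ≤ u → Tr A t r → (2 : ℝ) ^ n < (1 + 1 / (n : ℝ) ^ 10) ^ I →
  (∀ y, 1 ≤ y → y ≤ Nat.log 2 n → u ≤ J y ∧ 4 * (t + u + J y) ≤ n ∧ 4 * (u + J y) ≤ t ∧
    u * Nat.log 2 n * 2 ^ (2 * y + 2) ≤ 2 ^ J y ∧
    ∀ T : Finset (Fin n), t ≤ T.card → T.card ≤ t + (u + J y) →
      ∃ q, q ∉ T ∧ n < 2 ^ y * cls A ρ T q) →
    Tr A (t + u) (2 * (r + u * (n * (ρ + 2 * r * I))))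

/-! ### Part 6: the growth of the transitivity -/

/-- STP (from BIG, LEC).  `J y = u + 2 y + 2 + M` with `M = log log n + 1`, `ρ = n ^ 18 r`,
`I = n ^ 12`, `s = u + J y`.  With `λ = Nat.log 2 n + 1`: `kk n y * s ≤ 4 λ (2 u + 4 + M)`, so BIG
applies if `λ (C M 4 λ (2 u + 4 + M) + 1) < log2 (t!)`, and `t! ≥ (t / 2) ^ (t / 2)`. -/
def StpStatement : Prop := ∃ K n0 : ℕ, 1 ≤ K ∧ ∀ n ≥ n0, ∀ A : Set (Perm (Fin n)),
  alternatingGroup (Fin n) ≤ Subgroup.closure A → ∀ t r u : ℕ, 1 ≤ r → 10 * t ≤ n → 1 ≤ u →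
  Tr A t r → K * (Nat.log 2 (Nat.log 2 n) + 1) * Nat.log 2 n ^ 2 ≤ t →
  K * (Nat.log 2 (Nat.log 2 n) + 1) * Nat.log 2 n ^ 2 * u ≤ t * Nat.log 2 t →
    (∃ z : Perm (Fin n), z ≠ 1 ∧ InBall A (n ^ 18 * r) z ∧ 5 * z.support.card ≤ n) ∨
      Tr A (t + u) (n ^ 22 * r)

/-- GRO (iteration of STP; BAS is the base).  Put `q = K M λ ^ 2` with `λ = Nat.log 2 n`,
`M = log λ + 1`.  Start with `t = 2 ^ j0`, the least power of two that is at least `q`, and
`Tr A t ((4 n) ^ t)` (SUC).  Phase `j` goes from `t = 2 ^ j` to `2 ^ (j + 1)` with steps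
`u = 2 ^ j j / q ≥ 1` (`j ≥ 1`), at most `2 q / j + 1` steps, each multiplies the radius by `n ^ 22`.
The sum of `1 / j` is at most `M`. -/
def GroStatement : Prop := ∃ K n0 : ℕ, ∀ n ≥ n0, ∀ A : Set (Perm (Fin n)),
  alternatingGroup (Fin n) ≤ Subgroup.closure A → ∀ t : ℕ, 20 * t ≤ n →
    ∃ r, 1 ≤ r ∧ r ≤ n ^ (K * (Nat.log 2 (Nat.log 2 n) + 1) ^ 2 * Nat.log 2 n ^ 2) ∧
      ((∃ z : Perm (Fin n), z ≠ 1 ∧ InBall A r z ∧ 5 * z.support.card ≤ n) ∨ Tr A t r)

/-- the main statement in natural numbers -/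
def MainStatement : Prop := ∃ K n0 : ℕ, ∀ n ≥ n0, ∀ A : Set (Perm (Fin n)),
  alternatingGroup (Fin n) ≤ Subgroup.closure A → ∀ g ∈ Subgroup.closure A,
    InBall A (n ^ (K * (Nat.log 2 (Nat.log 2 n) + 1) ^ 2 * Nat.log 2 n ^ 2)) g

end Pool.Agent.SymDiam.HS
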