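import Pool.Agent.Lib.MP_7b6720_al.HS.Defs

set_option autoImplicit false

/-!
# Row SCH: Schreier's lemma for the stabiliser of a tuple
-/

namespace Pool.Agent.SymDiam.HS

open Equiv Finset

theorem sch_proof : SchStatement := by
  classical
  intro n t r A hT e g hg hge
  -- coset representatives
  have h1 : ∀ f : Fin t ↪ Fin n, ∃ u : Perm (Fin n), InBall A r u ∧ Maps e f u ∧
      (f = e → u = 1) := by
    intro f
    by_cases hf : f = e
    · exact ⟨1, InBall.one, fun i => by rw [hf]; rfl, fun _ => rfl⟩
    · obtain ⟨u, h2, h3⟩ := hT e f
      exact ⟨u, h2, h3, fun h => absurd h hf⟩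
  choose u hu1 hu2 hu3 using h1
  set K := Subgroup.closure {x | InBall A (2 * r + 1) x ∧ Maps e e x} with hK
  have key : ∀ x ∈ Subgroup.closure A, ∀ f : Fin t ↪ Fin n,
      (u (f.trans x.toEmbedding))⁻¹ * x * u f ∈ K := by
    intro x hx
    induction hx using Subgroup.closure_induction with
    | mem x hx =>
        intro f
        refine Subgroup.subset_closure ⟨?_, ?_⟩
        · exact (((hu1 _).inv.mul (InBall.of_mem hx)).mul (hu1 f)).mono (by omega)
        · intro i
          rw [Perm.mul_apply, Perm.mul_apply, hu2 f i, Perm.inv_eq_iff_eq, hu2]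
          rfl
    | one =>
        intro f
        have h2 : f.trans (1 : Perm (Fin n)).toEmbedding = f := by ext i; rfl
        rw [h2, mul_one, inv_mul_cancel]
        exact K.one_mem
    | mul x y _ _ ihx ihy =>
        intro f
        have h2 := K.mul_mem (ihx (f.trans y.toEmbedding)) (ihy f)
        have h3 : (f.trans y.toEmbedding).trans x.toEmbedding =
            f.trans (x * y : Perm (Fin n)).toEmbedding := by ext i; rfl
        rw [h3] at h2
        convert h2 using 1
        group
    | inv x _ ih =>
        intro f
        have h2 := K.inv_mem (ih (f.trans (x⁻¹ : Perm (Fin n)).toEmbedding))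
        have h3 : (f.trans (x⁻¹ : Perm (Fin n)).toEmbedding).trans x.toEmbedding = f := by
          ext i
          simp
        rw [h3] at h2
        convert h2 using 1
        group
  have h2 := key g hg e
  have h3 : e.trans g.toEmbedding = e := by
    ext i
    exact congrArg Fin.val (hge i)
  rw [h3, hu3 e rfl, inv_one, one_mul, mul_one] at h2
  exact h2

end Pool.Agent.SymDiam.HS
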